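import Mathlib

/-!
Official definitions: commutative closure of a language, and the languages
`b_1^* b_2^* ... b_m^*`.
-/

namespace Pool.Agent.Helper22.FL

/-- the commutative closure of `L`: all rearrangements of the words of `L` -/
def comm {T : Type} (L : Language T) : Language T := {w | ∃ v ∈ L, w.Perm v}

/-- the language `b_1^* b_2^* ... b_m^*` -/
def blocks {T : Type} {m : ℕ} (b : Fin m → T) : Language T :=
  {w | ∃ k : Fin m → ℕ, w = (List.ofFn fun i => List.replicate (k i) (b i)).flatten}

end Pool.Agent.Helper22.FL
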