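import Pool.Agent.Helper22.FL.Closure
import Pool.Agent.Helper22.FL.Defs

/-!
The languages `b_1^* ... b_m^*` are regular.
-/

namespace Pool.Agent.Helper22.FL

variable {T T' : Type}

theorem mem_blocks_iff {m : ℕ} {b : Fin m → T} {w : List T} :
    w ∈ blocks b ↔ ∃ ps : List (Fin m), ps.Pairwise (· ≤ ·) ∧ w = ps.map b := by
  constructor
  · rintro ⟨k, rfl⟩
    refine ⟨(List.ofFn fun i => List.replicate (k i) i).flatten, ?_, ?_⟩
    · rw [List.pairwise_flatten]
      constructor
      · intro l hl
        rw [List.mem_ofFn] at hl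
        obtain ⟨i, rfl⟩ := hl
        rw [List.pairwise_replicate]
        right
        exact le_rfl
      · rw [List.pairwise_ofFn]
        intro i j hij x hx y hy
        rw [List.eq_of_mem_replicate hx, List.eq_of_mem_replicate hy]
        exact hij.le
    · rw [List.map_flatten, List.map_ofFn]
      congr 1
      congr 1
      funext i
      simp
  · rintro ⟨ps, hps, rfl⟩
    refine ⟨fun i => ps.count i, ?_⟩
    have h : ps = (List.ofFn fun i => List.replicate (ps.count i) i).flatten := by
      refine List.Perm.eq_of_pairwise (le := (· ≤ ·)) ?_ hps ?_ ?_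
      · intro a b _ _ h1 h2
        exact le_antisymm h1 h2
      · rw [List.pairwise_flatten]
        constructor
        · intro l hl
          rw [List.mem_ofFn] at hl
          obtain ⟨i, rfl⟩ := hl
          rw [List.pairwise_replicate]
          right
          exact le_rfl
        · rw [List.pairwise_ofFn]
          intro i j hij x hx y hy
          rw [List.eq_of_mem_replicate hx, List.eq_of_mem_replicate hy]
          exact hij.le
      · rw [List.perm_iff_count]
        intro a
        rw [List.count_flatten, List.map_ofFn, List.sum_ofFn]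
        simp [List.count_replicate]
    conv_lhs => rw [h]
    rw [List.map_flatten, List.map_ofFn]
    congr 1
    congr 1
    funext i
    simp

/-- runs of the obvious automaton for `b_0^* ... b_m^*` -/
def patRuns {m : ℕ} (b : Fin (m + 1) → T) : Runs T (Fin (m + 1)) where
  rel i w j := i ≤ j ∧ ∃ ps : List (Fin (m + 1)), ps.Pairwise (· ≤ ·) ∧
    (∀ x ∈ ps, i ≤ x ∧ x ≤ j) ∧ w = ps.map b
  append i u v j := by
    constructor
    · rintro ⟨hij, ps, hps, hx, h⟩
      obtain ⟨p1, p2, rfl, rfl, rfl⟩ := List.map_eq_append_iff.1 h.symm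
      rw [List.pairwise_append] at hps
      rcases List.eq_nil_or_concat p1 with rfl | ⟨l, m, rfl⟩
      · exact ⟨i, ⟨le_rfl, [], by simp, by simp, rfl⟩, hij, p2, hps.2.1,
          fun x h => hx x (by simpa using h), rfl⟩
      · refine ⟨m, ⟨(hx m (by simp)).1, _, hps.1, fun x h => ⟨(hx x ?_).1, ?_⟩, rfl⟩,
          (hx m (by simp)).2, p2, hps.2.1, fun x h => ⟨?_, (hx x ?_).2⟩, rfl⟩
        · simp only [List.mem_append]
          exact Or.inl h
        · simp only [List.concat_eq_append, List.mem_append, List.mem_singleton] at h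
          rcases h with h | rfl
          · have h1 := hps.1
            rw [List.concat_eq_append, List.pairwise_append] at h1
            exact h1.2.2 x h m (by simp)
          · exact le_rfl
        · exact hps.2.2 m (by simp) x h
        · simp only [List.mem_append]
          exact Or.inr h
    · rintro ⟨m, ⟨him, p1, h1, h2, rfl⟩, hmj, p2, h3, h4, rfl⟩
      refine ⟨him.trans hmj, p1 ++ p2, ?_, ?_, (List.map_append).symm⟩
      · rw [List.pairwise_append]
        exact ⟨h1, h3, fun x hx y hy => (h2 x hx).2.trans (h4 y hy).1⟩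
      · intro x hx
        rcases List.mem_append.1 hx with hx | hx
        · exact ⟨(h2 x hx).1, (h2 x hx).2.trans hmj⟩
        · exact ⟨him.trans (h4 x hx).1, (h4 x hx).2⟩

theorem patRuns_iff {m : ℕ} {b : Fin (m + 1) → T} {w : List T} :
    (patRuns b).rel 0 w (Fin.last m) ↔ w ∈ blocks b := by
  rw [mem_blocks_iff]
  constructor
  · rintro ⟨_, ps, h1, _, h2⟩
    exact ⟨ps, h1, h2⟩
  · rintro ⟨ps, h1, h2⟩
    exact ⟨Fin.zero_le _, ps, h1, fun x _ => ⟨Fin.zero_le _, Fin.le_last _⟩, h2⟩

/-- inverse image of runs under a letter map -/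
def Runs.comap {Q : Type} (A : Runs T' Q) (f : T → T') : Runs T Q where
  rel p w q := A.rel p (w.map f) q
  append p u v q := by
    rw [List.map_append]
    exact A.append _ _ _ _

end Pool.Agent.Helper22.FL
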