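import Pool.Agent.Helper22.FL.Big

/-!
Words whose letters can be given weights (from a set depending on the letter, bounded by 2)
with total weight zero form a context-free language.
-/

namespace Pool.Agent.Helper22.FL

open Symbol

variable {T : Type}

/-- the word can be given total weight `d` -/
inductive Wt (W : T → Set ℤ) : List T → ℤ → Prop
  | nil : Wt W [] 0
  | cons {t : T} {a : ℤ} {w : List T} {d : ℤ} : a ∈ W t → Wt W w d → Wt W (t :: w) (a + d)

variable {W : T → Set ℤ}

theorem Wt.append {u v : List T} {a b : ℤ} (h1 : Wt W u a) (h2 : Wt W v b) :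
    Wt W (u ++ v) (a + b) := by
  induction h1 with
  | nil => simpa using h2
  | cons ha _ ih =>
    rw [add_assoc]
    exact .cons ha ih

theorem wt_nil_iff {d : ℤ} : Wt W [] d ↔ d = 0 := by
  constructor
  · intro h
    cases h
    rfl
  · rintro rfl
    exact .nil

theorem wt_cons_iff {t : T} {w : List T} {d : ℤ} :
    Wt W (t :: w) d ↔ ∃ a ∈ W t, Wt W w (d - a) := by
  constructor
  · intro h
    cases h with
    | cons ha h => exact ⟨_, ha, by simpa using h⟩
  · rintro ⟨a, ha, h⟩
    have := Wt.cons ha h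
    simpa using this

theorem wt_single_iff {t : T} {d : ℤ} : Wt W [t] d ↔ d ∈ W t := by
  rw [wt_cons_iff]
  constructor
  · rintro ⟨a, ha, h⟩
    rw [wt_nil_iff] at h
    rwa [show d = a by omega]
  · intro h
    exact ⟨d, h, by simp [wt_nil_iff]⟩

/-- the rules of the grammar -/
def RW (W : T → Set ℤ) : Set (ContextFreeRule T ℤ) :=
  {⟨0, []⟩} ∪ Set.image2 (fun b c => ⟨b + c, [nonterminal b, nonterminal c]⟩)
    (Set.Icc (-2) 2) (Set.Icc (-2) 2) ∪ ⋃ t, (fun a => ⟨a, [terminal t]⟩) '' W t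

theorem RW_finite [Finite T] (hW : ∀ t, W t ⊆ Set.Icc (-2) 2) : (RW W).Finite := by
  refine ((Set.finite_singleton _).union ((Set.finite_Icc _ _).image2 _
    (Set.finite_Icc _ _))).union (Set.finite_iUnion fun t => ?_)
  exact ((Set.finite_Icc _ _).subset (hW t)).image _

theorem RW_sound {d : ℤ} {w : List T} (h : w ∈ lang (RW W) d) : Wt W w d := by
  refine lang_sound (fun d => {w | Wt W w d}) ?_ d h
  rintro r ((rfl | ⟨b, hb, c, hc, rfl⟩) | hr) w hw
  · rw [show w = [] from hw]
    exact Wt.nil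
  · obtain ⟨u, v, rfl, hu, v', z, rfl, hv, hz⟩ := hw
    rw [show z = [] from hz, List.append_nil]
    exact Wt.append hu hv
  · obtain ⟨t, ht⟩ := Set.mem_iUnion.1 hr
    obtain ⟨a, ha, rfl⟩ := ht
    obtain ⟨z, rfl, hz⟩ := hw
    rw [show z = [] from hz]
    exact wt_single_iff.2 ha

theorem walk_up (hW : ∀ t, W t ⊆ Set.Icc (-2) 2) (d : ℤ) (v : List T) :
    ∀ (u : List T) (a b : ℤ), Wt W u a → Wt W v b → a + b = d → a < d - 2 →
    ∃ u' v' a' b', u ++ v = u' ++ v' ∧ u.length ≤ u'.length ∧ v' ≠ [] ∧ Wt W u' a' ∧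
      Wt W v' b' ∧ a' + b' = d ∧ d - 2 ≤ a' ∧ a' ≤ d - 1 := by
  induction v with
  | nil =>
    intro u a b _ hb hab hlt
    rw [wt_nil_iff] at hb
    omega
  | cons t v ih =>
    intro u a b hu hb hab hlt
    obtain ⟨e, he, hv⟩ := wt_cons_iff.1 hb
    have he2 := hW t he
    rw [Set.mem_Icc] at he2
    have hu' : Wt W (u ++ [t]) (a + e) := hu.append (wt_single_iff.2 he)
    by_cases hc : d - 2 ≤ a + e
    · refine ⟨u ++ [t], v, a + e, b - e, by simp, by simp, ?_, hu', hv, by omega, hc, by omega⟩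
      rintro rfl
      rw [wt_nil_iff] at hv
      omega
    · obtain ⟨u', v', a', b', h1, h2, h3⟩ := ih (u ++ [t]) (a + e) (b - e) hu' hv (by omega)
        (by omega)
      refine ⟨u', v', a', b', ?_, ?_, h3⟩
      · rw [← h1]; simp
      · simp at h2
        omega

theorem walk_down (hW : ∀ t, W t ⊆ Set.Icc (-2) 2) (d : ℤ) (v : List T) :
    ∀ (u : List T) (a b : ℤ), Wt W u a → Wt W v b → a + b = d → d + 2 < a →
    ∃ u' v' a' b', u ++ v = u' ++ v' ∧ u.length ≤ u'.length ∧ v' ≠ [] ∧ Wt W u' a' ∧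
      Wt W v' b' ∧ a' + b' = d ∧ d + 1 ≤ a' ∧ a' ≤ d + 2 := by
  induction v with
  | nil =>
    intro u a b _ hb hab hlt
    rw [wt_nil_iff] at hb
    omega
  | cons t v ih =>
    intro u a b hu hb hab hlt
    obtain ⟨e, he, hv⟩ := wt_cons_iff.1 hb
    have he2 := hW t he
    rw [Set.mem_Icc] at he2
    have hu' : Wt W (u ++ [t]) (a + e) := hu.append (wt_single_iff.2 he)
    by_cases hc : a + e ≤ d + 2
    · refine ⟨u ++ [t], v, a + e, b - e, by simp, by simp, ?_, hu', hv, by omega, by omega, hc⟩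
      rintro rfl
      rw [wt_nil_iff] at hv
      omega
    · obtain ⟨u', v', a', b', h1, h2, h3⟩ := ih (u ++ [t]) (a + e) (b - e) hu' hv (by omega)
        (by omega)
      refine ⟨u', v', a', b', ?_, ?_, h3⟩
      · rw [← h1]; simp
      · simp at h2
        omega

theorem RW_complete (hW : ∀ t, W t ⊆ Set.Icc (-2) 2) (n : ℕ) :
    ∀ (w : List T) (d : ℤ), w.length ≤ n → Wt W w d → -2 ≤ d → d ≤ 2 → w ∈ lang (RW W) d := by
  induction n with
  | zero =>
    intro w d hn h _ _
    have : w = [] := List.length_eq_zero_iff.1 (by omega)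
    subst this
    rw [wt_nil_iff] at h
    subst h
    exact der_nt_iff.2 ⟨⟨0, []⟩, Or.inl (Or.inl rfl), rfl, .nil⟩
  | succ n ih =>
    intro w d hn h hd1 hd2
    rcases w with _ | ⟨t, w⟩
    · exact ih [] d (by simp) h hd1 hd2
    rcases w with _ | ⟨t', w⟩
    · rw [wt_single_iff] at h
      refine der_nt_iff.2 ⟨⟨d, [terminal t]⟩, Or.inr (Set.mem_iUnion.2 ⟨t, d, h, rfl⟩), rfl, ?_⟩
      exact .term t .nil
    -- a word of length at least two: split it
    have hsplit : ∃ u' v' a' b', t :: t' :: w = u' ++ v' ∧ 1 ≤ u'.length ∧ v' ≠ [] ∧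
        Wt W u' a' ∧ Wt W v' b' ∧ a' + b' = d ∧ -2 ≤ a' ∧ a' ≤ 2 ∧ -2 ≤ b' ∧ b' ≤ 2 := by
      obtain ⟨a, ha, h'⟩ := wt_cons_iff.1 h
      have ha2 := hW t ha
      rw [Set.mem_Icc] at ha2
      rcases lt_or_ge a (d - 2) with hlt | hge
      · obtain ⟨u', v', a', b', h1, h2, h3, h4, h5, h6, h7, h8⟩ :=
          walk_up hW d (t' :: w) [t] a (d - a) (wt_single_iff.2 ha) h' (by omega) hlt
        exact ⟨u', v', a', b', h1, h2, h3, h4, h5, h6, by omega, by omega, by omega, by omega⟩
      rcases lt_or_ge (d + 2) a with hlt | hge'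
      · obtain ⟨u', v', a', b', h1, h2, h3, h4, h5, h6, h7, h8⟩ :=
          walk_down hW d (t' :: w) [t] a (d - a) (wt_single_iff.2 ha) h' (by omega) hlt
        exact ⟨u', v', a', b', h1, h2, h3, h4, h5, h6, by omega, by omega, by omega, by omega⟩
      · exact ⟨[t], t' :: w, a, d - a, rfl, by simp, by simp, wt_single_iff.2 ha, h', by omega,
          by omega, by omega, by omega, by omega⟩
    obtain ⟨u', v', a', b', h1, h2, h3, h4, h5, h6, h7, h8, h9, h10⟩ := hsplit
    have hlen : (t :: t' :: w).length = u'.length + v'.length := by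
      rw [h1, List.length_append]
    have hv' : 1 ≤ v'.length := by
      rcases v' with _ | ⟨x, v'⟩
      · exact absurd rfl h3
      · simp
    have hu := ih u' a' (by omega) h4 h7 h8
    have hv := ih v' b' (by omega) h5 h9 h10
    rw [h1]
    refine der_nt_iff.2 ⟨⟨a' + b', [nonterminal a', nonterminal b']⟩,
      Or.inl (Or.inr ⟨a', ⟨h7, h8⟩, b', ⟨h9, h10⟩, rfl⟩), h6, ?_⟩
    exact Der.append (α := [nonterminal a']) hu hv

/-- the words of possible total weight zero form a context-free language -/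
theorem isContextFree_wt [Finite T] (hW : ∀ t, W t ⊆ Set.Icc (-2) 2) :
    Language.IsContextFree ({w | Wt W w 0} : Language T) := by
  have : ({w | Wt W w 0} : Language T) = lang (RW W) 0 := by
    ext w
    exact ⟨fun h => RW_complete hW w.length w 0 le_rfl h (by norm_num) (by norm_num),
      fun h => RW_sound h⟩
  rw [this]
  exact isContextFree_lang (RW_finite hW) 0

/-- weights for the first cone -/
def W1 : Fin 4 → Set ℤ
  | 0 => {0}
  | 1 => {-2}
  | 2 => Set.Icc 0 2
  | 3 => {1}

/-- weights for the second cone -/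
def W2 : Fin 4 → Set ℤ
  | 0 => {0}
  | 1 => {-2}
  | 2 => {1}
  | 3 => Set.Icc 0 2

theorem wt_W1 (w : List (Fin 4)) (d : ℤ) : Wt W1 w d ↔
    (w.count 3 : ℤ) - 2 * w.count 1 ≤ d ∧ d ≤ w.count 3 + 2 * w.count 2 - 2 * w.count 1 := by
  induction w generalizing d with
  | nil => rw [wt_nil_iff]; simp; omega
  | cons t w ih =>
    rw [wt_cons_iff]
    have hf : ∀ t : Fin 4, t = 0 ∨ t = 1 ∨ t = 2 ∨ t = 3 := by decide
    rcases hf t with rfl | rfl | rfl | rfl
    · simp only [W1, Set.mem_singleton_iff, exists_eq_left, ih, List.count_cons]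
      simp
    · simp only [W1, Set.mem_singleton_iff, exists_eq_left, ih, List.count_cons]
      simp
      omega
    · simp only [W1, ih, List.count_cons, Set.mem_Icc]
      simp
      constructor
      · rintro ⟨a, h1, h2, h3⟩
        omega
      · intro h
        by_cases h0 : d ≤ w.count 3 + 2 * w.count 2 - 2 * w.count 1
        · exact ⟨0, by omega, by omega, by omega⟩
        · exact ⟨d - (w.count 3 + 2 * w.count 2 - 2 * w.count 1), by omega, by omega, by omega⟩
    · simp only [W1, Set.mem_singleton_iff, exists_eq_left, ih, List.count_cons]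
      simp
      omega

theorem wt_W2 (w : List (Fin 4)) (d : ℤ) : Wt W2 w d ↔
    (w.count 2 : ℤ) - 2 * w.count 1 ≤ d ∧ d ≤ w.count 2 + 2 * w.count 3 - 2 * w.count 1 := by
  induction w generalizing d with
  | nil => rw [wt_nil_iff]; simp; omega
  | cons t w ih =>
    rw [wt_cons_iff]
    have hf : ∀ t : Fin 4, t = 0 ∨ t = 1 ∨ t = 2 ∨ t = 3 := by decide
    rcases hf t with rfl | rfl | rfl | rfl
    · simp only [W2, Set.mem_singleton_iff, exists_eq_left, ih, List.count_cons]
      simp
    · simp only [W2, Set.mem_singleton_iff, exists_eq_left, ih, List.count_cons]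
      simp
      omega
    · simp only [W2, Set.mem_singleton_iff, exists_eq_left, ih, List.count_cons]
      simp
      omega
    · simp only [W2, ih, List.count_cons, Set.mem_Icc]
      simp
      constructor
      · rintro ⟨a, h1, h2, h3⟩
        omega
      · intro h
        by_cases h0 : d ≤ w.count 2 + 2 * w.count 3 - 2 * w.count 1
        · exact ⟨0, by omega, by omega, by omega⟩
        · exact ⟨d - (w.count 2 + 2 * w.count 3 - 2 * w.count 1), by omega, by omega, by omega⟩

/-- commutative languages of the two cones -/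
def LK1 : Language (Fin 4) :=
  {w | w.count 3 ≤ 2 * w.count 1 ∧ 2 * w.count 1 ≤ 2 * w.count 2 + w.count 3}

/-- see `LK1` -/
def LK2 : Language (Fin 4) :=
  {w | w.count 2 ≤ 2 * w.count 1 ∧ 2 * w.count 1 ≤ 2 * w.count 3 + w.count 2}

theorem isContextFree_LK1 : LK1.IsContextFree := by
  have h : LK1 = {w | Wt W1 w 0} := by
    ext w
    show _ ∧ _ ↔ Wt W1 w 0
    rw [wt_W1]
    omega
  rw [h]
  refine isContextFree_wt fun t => ?_
  have hf : ∀ t : Fin 4, t = 0 ∨ t = 1 ∨ t = 2 ∨ t = 3 := by decide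
  rcases hf t with rfl | rfl | rfl | rfl <;> intro x hx <;> simp [W1] at hx ⊢ <;> omega

theorem isContextFree_LK2 : LK2.IsContextFree := by
  have h : LK2 = {w | Wt W2 w 0} := by
    ext w
    show _ ∧ _ ↔ Wt W2 w 0
    rw [wt_W2]
    omega
  rw [h]
  refine isContextFree_wt fun t => ?_
  have hf : ∀ t : Fin 4, t = 0 ∨ t = 1 ∨ t = 2 ∨ t = 3 := by decide
  rcases hf t with rfl | rfl | rfl | rfl <;> intro x hx <;> simp [W2] at hx ⊢ <;> omega

end Pool.Agent.Helper22.FL
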