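import Pool.Agent.Helper22.FL.Big

/-!
A version of the lemma of Ogden in which the marked positions are the occurrences of a letter.
-/

namespace Pool.Agent.Helper22.FL

open Symbol

variable {T N : Type} [DecidableEq T]

/-- contexts: replacing a derivation from `β` of `x` gives a derivation from `α` of `u x z` -/
def Reach (R : Set (ContextFreeRule T N)) (α : List (Symbol T N)) (u z : List T)
    (β : List (Symbol T N)) : Prop :=
  ∀ x, Der R β x → Der R α (u ++ x ++ z)

variable {R : Set (ContextFreeRule T N)}

omit [DecidableEq T] in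
theorem Reach.refl (α : List (Symbol T N)) : Reach R α [] [] α := fun x hx => by simpa using hx

omit [DecidableEq T] in
theorem Reach.trans {α β γ : List (Symbol T N)} {u z u' z' : List T} (h1 : Reach R α u z β)
    (h2 : Reach R β u' z' γ) : Reach R α (u ++ u') (z' ++ z) γ := by
  intro x hx
  have := h1 _ (h2 x hx)
  simpa [List.append_assoc] using this

omit [DecidableEq T] in
theorem Reach.pow {α : List (Symbol T N)} {v y : List T} (h : Reach R α v y α) (k : ℕ) :
    Reach R α (List.replicate k v).flatten (List.replicate k y).flatten α := by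
  induction k with
  | zero => exact Reach.refl α
  | succ k ih =>
    have := h.trans ih
    rw [List.replicate_succ, List.flatten_cons, List.replicate_succ', List.flatten_append]
    simpa using this

omit [DecidableEq T] in
theorem reach_term (t : T) (α : List (Symbol T N)) : Reach R (terminal t :: α) [t] [] α := by
  intro x hx
  simpa using Der.term t hx

omit [DecidableEq T] in
theorem reach_left {r : ContextFreeRule T N} (hr : r ∈ R) {α : List (Symbol T N)} {w : List T}
    (h : Der R α w) : Reach R (nonterminal r.input :: α) [] w r.output := by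
  intro x hx
  simpa using Der.nonterm hr hx h

omit [DecidableEq T] in
theorem reach_right {r : ContextFreeRule T N} (hr : r ∈ R) {α : List (Symbol T N)} {u : List T}
    (h : Der R r.output u) : Reach R (nonterminal r.input :: α) u [] α := by
  intro x hx
  simpa using Der.nonterm hr h hx

/-- there is a marked loop in the derivation -/
def Good (R : Set (ContextFreeRule T N)) (a : T) (α : List (Symbol T N)) (w : List T) : Prop :=
  ∃ β u v x y z, w = u ++ (v ++ x ++ y) ++ z ∧ Reach R α u z β ∧ Reach R β v y β ∧ Der R β x ∧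
    1 ≤ v.count a + y.count a

/-- an item of `F` is reached -/
def Hit (R : Set (ContextFreeRule T N)) (F : Set (List (Symbol T N))) (α : List (Symbol T N))
    (w : List T) : Prop :=
  ∃ β ∈ F, ∃ u x z, w = u ++ x ++ z ∧ Reach R α u z β ∧ Der R β x

theorem Good.lift {a : T} {α α' : List (Symbol T N)} {u z w : List T} (h : Reach R α u z α')
    (hg : Good R a α' w) : Good R a α (u ++ w ++ z) := by
  obtain ⟨β, u', v, x, y, z', rfl, h1, h2, h3, h4⟩ := hg
  refine ⟨β, u ++ u', v, x, y, z' ++ z, ?_, h.trans h1, h2, h3, h4⟩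
  simp [List.append_assoc]

omit [DecidableEq T] in
theorem Hit.lift {F : Set (List (Symbol T N))} {α α' : List (Symbol T N)} {u z w : List T}
    (h : Reach R α u z α') (hg : Hit R F α' w) : Hit R F α (u ++ w ++ z) := by
  obtain ⟨β, hβ, u', x, z', rfl, h1, h2⟩ := hg
  refine ⟨β, hβ, u ++ u', x, z' ++ z, ?_, h.trans h1, h2⟩
  simp [List.append_assoc]

theorem branch {a : T} {F : Set (List (Symbol T N))} {α₀ α' : List (Symbol T N)}
    {u z w : List T} (h : Reach R α₀ u z α') (hm : 1 ≤ u.count a + z.count a)
    (hg : Good R a α' w ∨ Hit R (insert α₀ F) α' w) :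
    Good R a α₀ (u ++ w ++ z) ∨ Hit R F α₀ (u ++ w ++ z) := by
  rcases hg with hg | ⟨β, hβ, u', x, z', rfl, h1, h2⟩
  · exact Or.inl (hg.lift h)
  · rcases hβ with rfl | hβ
    · left
      refine ⟨β, [], u ++ u', x, z' ++ z, [], ?_, Reach.refl _, h.trans h1, h2, ?_⟩
      · simp [List.append_assoc]
      · simp only [List.count_append]
        omega
    · right
      exact Hit.lift h ⟨β, hβ, u', x, z', rfl, h1, h2⟩

theorem ogden_aux (a : T) {I : Set (List (Symbol T N))} (hfin : I.Finite)
    (hI1 : ∀ b α, b :: α ∈ I → α ∈ I) (hI2 : ∀ r ∈ R, r.output ∈ I) :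
    ∀ (n : ℕ) (F : Set (List (Symbol T N))), (I \ F).ncard ≤ n → ∀ α w, Der R α w → α ∈ I →
      2 ^ n ≤ w.count a → Good R a α w ∨ Hit R F α w := by
  intro n
  induction n with
  | zero =>
    intro F hF α w hd hα _
    right
    have h0 : I \ F = ∅ := by
      rw [← Set.ncard_eq_zero (hfin.sdiff)]
      omega
    have : α ∈ F := by
      by_contra hc
      have : α ∈ I \ F := ⟨hα, hc⟩
      rw [h0] at this
      exact this
    exact ⟨α, this, [], w, [], by simp, Reach.refl _, hd⟩
  | succ n ihn =>
    intro F hF α w hd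
    have hcard : ∀ α₀ ∈ I, α₀ ∉ F → (I \ insert α₀ F).ncard ≤ n := by
      intro α₀ h1 h2
      have h3 : (I \ insert α₀ F).ncard < (I \ F).ncard := by
        refine Set.ncard_lt_ncard ?_ hfin.sdiff
        refine ⟨Set.sdiff_subset_sdiff_right (Set.subset_insert _ _), fun hc => ?_⟩
        exact (hc ⟨h1, h2⟩).2 (Set.mem_insert _ _)
      omega
    have hpow : 2 ^ (n + 1) = 2 ^ n + 2 ^ n := by rw [pow_succ]; omega
    have hpos : 1 ≤ 2 ^ n := Nat.one_le_two_pow
    induction hd with
    | nil =>
      intro _ hc
      simp at hc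
    | @term t α w hd ih =>
      intro hα hc
      by_cases hF0 : (terminal t :: α) ∈ F
      · right
        exact ⟨_, hF0, [], t :: w, [], by simp, Reach.refl _, Der.term t hd⟩
      by_cases ht : t = a
      · subst ht
        rw [List.count_cons_self] at hc
        have h1 := ihn (insert (terminal t :: α) F) (hcard _ hα hF0) α w hd (hI1 _ _ hα)
          (by omega)
        have := branch (reach_term t α) (by simp) h1
        simpa using this
      · rw [List.count_cons_of_ne ht] at hc
        rcases ih (hI1 _ _ hα) hc with h1 | h1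
        · left
          simpa using h1.lift (reach_term t α)
        · right
          simpa using h1.lift (reach_term t α)
    | @nonterm r α u w hr hd1 hd2 ih1 ih2 =>
      intro hα hc
      by_cases hF0 : (nonterminal r.input :: α) ∈ F
      · right
        exact ⟨_, hF0, [], u ++ w, [], by simp, Reach.refl _, Der.nonterm hr hd1 hd2⟩
      rw [List.count_append] at hc
      have hl := reach_left (α := α) hr hd2
      have hrr := reach_right (α := α) hr hd1
      rcases Nat.eq_zero_or_pos (u.count a) with hu | hu
      · rcases ih2 (hI1 _ _ hα) (by omega) with h1 | h1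
        · left
          simpa using h1.lift hrr
        · right
          simpa using h1.lift hrr
      rcases Nat.eq_zero_or_pos (w.count a) with hw | hw
      · rcases ih1 (hI2 _ hr) (by omega) with h1 | h1
        · left
          simpa using h1.lift hl
        · right
          simpa using h1.lift hl
      by_cases hbig : 2 ^ n ≤ u.count a
      · have h1 := ihn (insert (nonterminal r.input :: α) F) (hcard _ hα hF0) r.output u hd1
          (hI2 _ hr) hbig
        have := branch hl (by rw [List.count_nil]; omega) h1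
        simpa using this
      · have h1 := ihn (insert (nonterminal r.input :: α) F) (hcard _ hα hF0) α w hd2
          (hI1 _ _ hα) (by omega)
        have := branch hrr (by rw [List.count_nil]; omega) h1
        simpa using this

theorem descend (a : T) {I : Set (List (Symbol T N))}
    (hI1 : ∀ b α, b :: α ∈ I → α ∈ I) (hI2 : ∀ r ∈ R, r.output ∈ I) (K : ℕ)
    {α : List (Symbol T N)} {w : List T} (hd : Der R α w) (hα : α ∈ I)
    (hc : 2 ^ K ≤ w.count a) :
    ∃ β ∈ I, ∃ u x z, w = u ++ x ++ z ∧ Reach R α u z β ∧ Der R β x ∧ 2 ^ K ≤ x.count a ∧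
      x.count a ≤ 2 ^ (K + 1) := by
  have hpow : 2 ^ (K + 1) = 2 ^ K + 2 ^ K := by rw [pow_succ]; omega
  have hpos : 1 ≤ 2 ^ K := Nat.one_le_two_pow
  have lift : ∀ {α α' : List (Symbol T N)} {u z w : List T}, Reach R α u z α' →
      (∃ β ∈ I, ∃ u x z, w = u ++ x ++ z ∧ Reach R α' u z β ∧ Der R β x ∧ 2 ^ K ≤ x.count a ∧
        x.count a ≤ 2 ^ (K + 1)) →
      ∃ β ∈ I, ∃ u' x z', (u ++ w ++ z) = u' ++ x ++ z' ∧ Reach R α u' z' β ∧ Der R β x ∧
        2 ^ K ≤ x.count a ∧ x.count a ≤ 2 ^ (K + 1) := by
    rintro α α' u z w h ⟨β, hβ, u', x, z', rfl, h1, h2, h3⟩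
    exact ⟨β, hβ, u ++ u', x, z' ++ z, by simp [List.append_assoc], h.trans h1, h2, h3⟩
  induction hd with
  | nil => simp at hc
  | @term t α w hd ih =>
    by_cases hle : (t :: w).count a ≤ 2 ^ (K + 1)
    · exact ⟨_, hα, [], _, [], by simp, Reach.refl _, Der.term t hd, hc, hle⟩
    have h1 : (t :: w).count a ≤ w.count a + 1 := by
      rw [List.count_cons]
      split_ifs <;> omega
    have := lift (reach_term t α) (ih (hI1 _ _ hα) (by omega))
    simpa using this
  | @nonterm r α u w hr hd1 hd2 ih1 ih2 =>
    by_cases hle : (u ++ w).count a ≤ 2 ^ (K + 1)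
    · exact ⟨_, hα, [], _, [], by simp, Reach.refl _, Der.nonterm hr hd1 hd2, hc, hle⟩
    rw [List.count_append] at hle
    by_cases hu : 2 ^ K ≤ u.count a
    · have := lift (reach_left (α := α) hr hd2) (ih1 (hI2 _ hr) hu)
      simpa using this
    · have := lift (reach_right (α := α) hr hd1) (ih2 (hI1 _ _ hα) (by omega))
      simpa using this

/-- The lemma of Ogden, the marked positions being the occurrences of the letter `a`. -/
theorem ogden {L : Language T} (hL : L.IsContextFree) (a : T) :
    ∃ p : ℕ, ∀ w ∈ L, p ≤ w.count a → ∃ u v x y z : List T, w = u ++ v ++ x ++ y ++ z ∧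
      1 ≤ v.count a + y.count a ∧ v.count a + x.count a + y.count a ≤ p ∧
      ∀ k : ℕ, u ++ (List.replicate k v).flatten ++ x ++ (List.replicate k y).flatten ++ z
        ∈ L := by
  obtain ⟨N, R, X, hR, rfl⟩ := exists_lang hL
  set I : Set (List (Symbol T N)) :=
    insert [nonterminal X] (insert [] (⋃ r ∈ R, {α | α ∈ r.output.tails})) with hIdef
  have hfin : I.Finite := by
    refine ((hR.biUnion fun r _ => ?_).insert _).insert _
    exact List.finite_toSet _
  have hI2 : ∀ r ∈ R, r.output ∈ I := by
    intro r hr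
    refine Or.inr (Or.inr ?_)
    simp only [Set.mem_iUnion]
    exact ⟨r, hr, by simp⟩
  have hI1 : ∀ b α, b :: α ∈ I → α ∈ I := by
    rintro b α (h | h | h)
    · right; left
      simp at h
      exact h.2
    · simp at h
    · right; right
      simp only [Set.mem_iUnion, Set.mem_ofPred_eq, List.mem_tails] at h ⊢
      obtain ⟨r, hr, h⟩ := h
      exact ⟨r, hr, (List.suffix_cons b α).trans h⟩
  set K := I.ncard with hK
  refine ⟨2 ^ (K + 1), fun w hw hc => ?_⟩
  have hpow : 2 ^ (K + 1) = 2 ^ K + 2 ^ K := by rw [pow_succ]; omega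
  obtain ⟨β, hβ, u, w', z, rfl, h1, h2, h3, h4⟩ := descend a hI1 hI2 K hw (Or.inl rfl)
    (by omega)
  rcases ogden_aux a hfin hI1 hI2 K ∅ (by rw [Set.sdiff_empty]) β w' h2 hβ h3 with
    ⟨γ, u', v, x, y, z', rfl, h5, h6, h7, h8⟩ | ⟨γ, hγ, _⟩
  · refine ⟨u ++ u', v, x, y, z' ++ z, by simp [List.append_assoc], h8, ?_, fun k => ?_⟩
    · simp only [List.count_append] at h4
      omega
    · have := ((h1.trans h5).trans (h6.pow k)) x h7
      rw [mem_lang]
      simpa [List.append_assoc] using this
  · exact absurd hγ (Set.notMem_empty _)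

end Pool.Agent.Helper22.FL
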