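import Mathlib

/-!
Big-step semantics of context-free grammars, given by a set of rules.
-/

namespace Pool.Agent.Helper22.FL

open Symbol

variable {T N : Type}

/-- Big-step derivation: the list of symbols `α` derives the word `w` with the rules `R`. -/
inductive Der (R : Set (ContextFreeRule T N)) : List (Symbol T N) → List T → Prop
  | nil : Der R [] []
  | term (t : T) {α : List (Symbol T N)} {w : List T} : Der R α w →
      Der R (terminal t :: α) (t :: w)
  | nonterm {r : ContextFreeRule T N} {α : List (Symbol T N)} {u w : List T} :
      r ∈ R → Der R r.output u → Der R α w → Der R (nonterminal r.input :: α) (u ++ w)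

variable {R R' : Set (ContextFreeRule T N)}

theorem Der.mono (h : R ⊆ R') {α : List (Symbol T N)} {w : List T} (hd : Der R α w) :
    Der R' α w := by
  induction hd with
  | nil => exact .nil
  | term t _ ih => exact .term t ih
  | nonterm hr _ _ ih1 ih2 => exact .nonterm (h hr) ih1 ih2

theorem Der.append {α β : List (Symbol T N)} {u v : List T} (h1 : Der R α u)
    (h2 : Der R β v) : Der R (α ++ β) (u ++ v) := by
  induction h1 with
  | nil => simpa using h2
  | term t _ ih => simpa using Der.term t ih
  | nonterm hr hd _ _ ih2 =>
    rw [List.append_assoc]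
    exact .nonterm hr hd ih2

theorem Der.split {α β : List (Symbol T N)} {w : List T} (h : Der R (α ++ β) w) :
    ∃ u v, w = u ++ v ∧ Der R α u ∧ Der R β v := by
  induction α generalizing w with
  | nil => exact ⟨[], w, rfl, .nil, by simpa using h⟩
  | cons a α ih =>
    rw [List.cons_append] at h
    cases h with
    | term t h' =>
      obtain ⟨u, v, rfl, h1, h2⟩ := ih h'
      exact ⟨t :: u, v, rfl, .term t h1, h2⟩
    | nonterm hr hd h' =>
      obtain ⟨u, v, rfl, h1, h2⟩ := ih h'
      exact ⟨_ ++ u, v, (List.append_assoc _ _ _).symm, .nonterm hr hd h1, h2⟩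

theorem der_nt_iff {X : N} {w : List T} :
    Der R [nonterminal X] w ↔ ∃ r ∈ R, r.input = X ∧ Der R r.output w := by
  constructor
  · intro h
    cases h with
    | nonterm hr hd h' =>
      cases h'
      exact ⟨_, hr, rfl, by simpa using hd⟩
  · rintro ⟨r, hr, rfl, hd⟩
    simpa using Der.nonterm hr hd Der.nil

theorem der_terms (w : List T) : Der R (w.map (terminal : T → Symbol T N)) w := by
  induction w with
  | nil => exact .nil
  | cons t w ih => exact .term t ih

theorem der_of_derives {g : ContextFreeGrammar T} {α : List (Symbol T g.NT)} {w : List T}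
    (h : g.Derives α (w.map terminal)) : Der (g.rules : Set _) α w := by
  induction h using Relation.ReflTransGen.head_induction_on with
  | refl => exact der_terms w
  | head hs _ ih =>
    obtain ⟨r, hr, hrw⟩ := hs
    obtain ⟨p, q, rfl, rfl⟩ := hrw.exists_parts
    obtain ⟨u, v, rfl, h1, h2⟩ := ih.split
    obtain ⟨u1, u2, rfl, h3, h4⟩ := h1.split
    have h5 : Der (g.rules : Set _) [nonterminal r.input] u2 := der_nt_iff.2 ⟨r, hr, rfl, h4⟩
    exact (h3.append h5).append h2

theorem derives_of_der {g : ContextFreeGrammar T} {α : List (Symbol T g.NT)} {w : List T}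
    (h : Der (g.rules : Set _) α w) : g.Derives α (w.map terminal) := by
  induction h with
  | nil => exact Relation.ReflTransGen.refl
  | term t _ ih => simpa using ih.append_left [terminal t]
  | @nonterm r α u w hr _ _ ih1 ih2 =>
    have h1 : g.Produces (nonterminal r.input :: α) (r.output ++ α) :=
      ⟨r, hr, ContextFreeRule.Rewrites.head α⟩
    refine h1.trans_derives ?_
    rw [List.map_append]
    exact (ih1.append_right α).trans (ih2.append_left _)

theorem mem_language_iff_der {g : ContextFreeGrammar T} {w : List T} :
    w ∈ g.language ↔ Der (g.rules : Set _) [nonterminal g.initial] w :=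
  ⟨der_of_derives, derives_of_der⟩

/-- the language derived from the nonterminal `X` -/
def lang (R : Set (ContextFreeRule T N)) (X : N) : Language T :=
  {w | Der R [nonterminal X] w}

theorem mem_lang {X : N} {w : List T} : w ∈ lang R X ↔ Der R [nonterminal X] w := Iff.rfl

theorem isContextFree_lang (hR : R.Finite) (X : N) : (lang R X).IsContextFree := by
  refine ⟨⟨N, X, hR.toFinset⟩, ?_⟩
  ext w
  rw [mem_language_iff_der]
  simp [mem_lang]

theorem exists_lang {L : Language T} (hL : L.IsContextFree) :
    ∃ (N : Type) (R : Set (ContextFreeRule T N)) (X : N), R.Finite ∧ L = lang R X := by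
  obtain ⟨g, rfl⟩ := hL
  refine ⟨g.NT, g.rules, g.initial, g.rules.finite_toSet, ?_⟩
  ext w
  rw [mem_language_iff_der]
  rfl

/-- interpretation of a list of symbols, given an interpretation of the nonterminals -/
def Interp (I : N → Language T) : List (Symbol T N) → List T → Prop
  | [], w => w = []
  | terminal t :: α, w => ∃ w', w = t :: w' ∧ Interp I α w'
  | nonterminal X :: α, w => ∃ u v, w = u ++ v ∧ u ∈ I X ∧ Interp I α v

theorem Der.sound (I : N → Language T)
    (h : ∀ r ∈ R, ∀ w, Interp I r.output w → w ∈ I r.input)
    {α : List (Symbol T N)} {w : List T} (hd : Der R α w) : Interp I α w := by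
  induction hd with
  | nil => rfl
  | term t _ ih => exact ⟨_, rfl, ih⟩
  | nonterm hr _ _ ih1 ih2 => exact ⟨_, _, rfl, h _ hr _ ih1, ih2⟩

theorem lang_sound (I : N → Language T)
    (h : ∀ r ∈ R, ∀ w, Interp I r.output w → w ∈ I r.input) (X : N) {w : List T}
    (hw : w ∈ lang R X) : w ∈ I X := by
  obtain ⟨u, v, rfl, hu, hv⟩ := Der.sound I h hw
  have : v = [] := hv
  subst this
  simpa using hu

theorem interp_lang_iff {α : List (Symbol T N)} {w : List T} :
    Interp (lang R) α w ↔ Der R α w := by
  constructor
  · intro h
    induction α generalizing w with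
    | nil => rw [show w = [] from h]; exact .nil
    | cons a α ih =>
      cases a with
      | terminal t =>
        obtain ⟨w', rfl, h'⟩ := h
        exact .term t (ih h')
      | nonterminal X =>
        obtain ⟨u, v, rfl, hu, hv⟩ := h
        exact Der.append (α := [nonterminal X]) hu (ih hv)
  · intro h
    induction h with
    | nil => rfl
    | term t _ ih => exact ⟨_, rfl, ih⟩
    | nonterm hr hd _ _ ih2 => exact ⟨_, _, rfl, der_nt_iff.2 ⟨_, hr, rfl, hd⟩, ih2⟩

end Pool.Agent.Helper22.FL
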