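import Pool.Agent.Helper22.FL.Big

/-!
Closure properties of context-free languages: images under letter maps, unions, intersections
with regular languages.
-/

namespace Pool.Agent.Helper22.FL

open Symbol

variable {T T' N N' : Type}

/-- renaming of nonterminals and letters in a symbol -/
def mapSym (f : N → N') (g : T → T') : Symbol T N → Symbol T' N'
  | terminal t => terminal (g t)
  | nonterminal X => nonterminal (f X)

/-- renaming in a rule -/
def mapRule (f : N → N') (g : T → T') (r : ContextFreeRule T N) : ContextFreeRule T' N' :=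
  ⟨f r.input, r.output.map (mapSym f g)⟩

theorem Der.map (f : N → N') (g : T → T') {R : Set (ContextFreeRule T N)}
    {α : List (Symbol T N)} {w : List T} (h : Der R α w) :
    Der (mapRule f g '' R) (α.map (mapSym f g)) (w.map g) := by
  induction h with
  | nil => exact .nil
  | term t _ ih => exact .term (g t) ih
  | @nonterm r α u w hr _ _ ih1 ih2 =>
    rw [List.map_append]
    exact Der.nonterm (r := mapRule f g r) ⟨r, hr, rfl⟩ ih1 ih2

theorem interp_map (f : N → N') (g : T → T') {R : Set (ContextFreeRule T N)}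
    {I : N' → Language T'} (hI : ∀ X, ∀ w ∈ I (f X), ∃ w0 ∈ lang R X, w = w0.map g)
    {α : List (Symbol T N)} {w : List T'} (h : Interp I (α.map (mapSym f g)) w) :
    ∃ w0, w = w0.map g ∧ Der R α w0 := by
  induction α generalizing w with
  | nil => exact ⟨[], h, .nil⟩
  | cons a α ih =>
    cases a with
    | terminal t =>
      obtain ⟨w', rfl, h'⟩ := h
      obtain ⟨w0, rfl, h0⟩ := ih h'
      exact ⟨t :: w0, rfl, .term t h0⟩
    | nonterminal X =>
      obtain ⟨u, v, rfl, hu, hv⟩ := h
      obtain ⟨u0, hu0, rfl⟩ := hI X u hu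
      obtain ⟨v0, rfl, hv0⟩ := ih hv
      exact ⟨u0 ++ v0, (List.map_append).symm, Der.append (α := [nonterminal X]) hu0 hv0⟩

/-- the image of a context-free language under a letter map is context-free -/
theorem isContextFree_map {L : Language T} (hL : L.IsContextFree) (g : T → T') :
    (Language.map g L).IsContextFree := by
  obtain ⟨N, R, X, hR, rfl⟩ := exists_lang hL
  have : Language.map g (lang R X) = lang (mapRule id g '' R) X := by
    ext w
    constructor
    · rintro ⟨w0, h0, rfl⟩
      exact Der.map id g h0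
    · intro h
      refine lang_sound (fun Y => Language.map g (lang R Y)) ?_ X h
      rintro _ ⟨r, hr, rfl⟩ w hw
      obtain ⟨w0, rfl, h0⟩ := interp_map id g (R := R) (fun Y v hv => by
        obtain ⟨w0, h0, rfl⟩ := hv
        exact ⟨w0, h0, rfl⟩) hw
      exact ⟨w0, der_nt_iff.2 ⟨r, hr, rfl, h0⟩, rfl⟩
  rw [this]
  exact isContextFree_lang (hR.image _) X

/-- the union of two context-free languages is context-free -/
theorem isContextFree_sup {L₁ L₂ : Language T} (h₁ : L₁.IsContextFree) (h₂ : L₂.IsContextFree) :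
    (L₁ ⊔ L₂).IsContextFree := by
  obtain ⟨N₁, R₁, X₁, hR₁, rfl⟩ := exists_lang h₁
  obtain ⟨N₂, R₂, X₂, hR₂, rfl⟩ := exists_lang h₂
  let f₁ : N₁ → Option (N₁ ⊕ N₂) := fun X => some (Sum.inl X)
  let f₂ : N₂ → Option (N₁ ⊕ N₂) := fun X => some (Sum.inr X)
  let R : Set (ContextFreeRule T (Option (N₁ ⊕ N₂))) :=
    {⟨none, [nonterminal (f₁ X₁)]⟩, ⟨none, [nonterminal (f₂ X₂)]⟩} ∪
      (mapRule f₁ id '' R₁ ∪ mapRule f₂ id '' R₂)
  have hR : R.Finite := (Set.toFinite _).union ((hR₁.image _).union (hR₂.image _))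
  have key : lang R₁ X₁ ⊔ lang R₂ X₂ = lang R none := by
    ext w
    constructor
    · rintro (h | h)
      · have h1 := (Der.map f₁ id h).mono (R' := R)
          (fun r hr => Or.inr (Or.inl hr))
        rw [List.map_id] at h1
        exact der_nt_iff.2 ⟨⟨none, [nonterminal (f₁ X₁)]⟩, Or.inl (Or.inl rfl), rfl, h1⟩
      · have h1 := (Der.map f₂ id h).mono (R' := R)
          (fun r hr => Or.inr (Or.inr hr))
        rw [List.map_id] at h1
        exact der_nt_iff.2 ⟨⟨none, [nonterminal (f₂ X₂)]⟩, Or.inl (Or.inr rfl), rfl, h1⟩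
    · intro h
      let I : Option (N₁ ⊕ N₂) → Language T := fun X => match X with
        | none => lang R₁ X₁ ⊔ lang R₂ X₂
        | some (Sum.inl X) => lang R₁ X
        | some (Sum.inr X) => lang R₂ X
      refine lang_sound I ?_ none h
      rintro r ((rfl | rfl) | (⟨r, hr, rfl⟩ | ⟨r, hr, rfl⟩)) w hw
      · obtain ⟨u, v, rfl, hu, hv⟩ := hw
        rw [show v = [] from hv, List.append_nil]
        exact Or.inl hu
      · obtain ⟨u, v, rfl, hu, hv⟩ := hw
        rw [show v = [] from hv, List.append_nil]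
        exact Or.inr hu
      · obtain ⟨w0, rfl, h0⟩ := interp_map f₁ id (R := R₁) (I := I)
          (fun Y v hv => ⟨v, hv, (List.map_id _).symm⟩) hw
        rw [List.map_id]
        exact der_nt_iff.2 ⟨r, hr, rfl, h0⟩
      · obtain ⟨w0, rfl, h0⟩ := interp_map f₂ id (R := R₂) (I := I)
          (fun Y v hv => ⟨v, hv, (List.map_id _).symm⟩) hw
        rw [List.map_id]
        exact der_nt_iff.2 ⟨r, hr, rfl, h0⟩
  rw [key]
  exact isContextFree_lang hR none

/-- A compositional family of relations, the runs of a finite automaton. -/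
structure Runs (T Q : Type) where
  /-- `rel p w q`: there is a run from `p` to `q` reading `w` -/
  rel : Q → List T → Q → Prop
  append : ∀ p u v q, rel p (u ++ v) q ↔ ∃ m, rel p u m ∧ rel m v q

variable {Q : Type}

/-- annotation of a list of symbols with states -/
def Ann (A : Runs T Q) : Q → List (Symbol T N) → List (Symbol T (Q × N × Q)) → Q → Prop
  | p, [], γ, q => γ = [] ∧ A.rel p [] q
  | p, terminal t :: α, γ, q => ∃ m γ', γ = terminal t :: γ' ∧ A.rel p [t] m ∧ Ann A m α γ' q
  | p, nonterminal X :: α, γ, q => ∃ m γ', γ = nonterminal (p, X, m) :: γ' ∧ Ann A m α γ' q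

theorem ann_finite [Finite Q] (A : Runs T Q) (α : List (Symbol T N)) (p q : Q) :
    {γ | Ann A p α γ q}.Finite := by
  induction α generalizing p with
  | nil => exact (Set.finite_singleton []).subset fun γ h => h.1
  | cons a α ih =>
    cases a with
    | terminal t =>
      refine ((Set.finite_iUnion fun m : Q => (ih m).image (fun γ => terminal t :: γ))).subset ?_
      rintro γ ⟨m, γ', rfl, _, h⟩
      exact Set.mem_iUnion.2 ⟨m, γ', h, rfl⟩
    | nonterminal X =>
      refine ((Set.finite_iUnion fun m : Q =>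
        (ih m).image (fun γ => nonterminal (p, X, m) :: γ))).subset ?_
      rintro γ ⟨m, γ', rfl, h⟩
      exact Set.mem_iUnion.2 ⟨m, γ', h, rfl⟩

/-- the annotated rules -/
def annRules (A : Runs T Q) (R : Set (ContextFreeRule T N)) :
    Set (ContextFreeRule T (Q × N × Q)) :=
  {r' | ∃ r ∈ R, ∃ p q, r'.input = (p, r.input, q) ∧ Ann A p r.output r'.output q}

theorem annRules_finite [Finite Q] (A : Runs T Q) {R : Set (ContextFreeRule T N)}
    (hR : R.Finite) : (annRules A R).Finite := by
  have h : (⋃ r ∈ R, ⋃ p : Q, ⋃ q : Q,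
      (fun γ => (⟨(p, r.input, q), γ⟩ : ContextFreeRule T (Q × N × Q))) ''
        {γ | Ann A p r.output γ q}).Finite :=
    hR.biUnion fun r _ => Set.finite_iUnion fun p => Set.finite_iUnion fun q =>
      (ann_finite A r.output p q).image _
  refine h.subset ?_
  rintro ⟨i, o⟩ ⟨r, hr, p, q, rfl, h⟩
  simp only [Set.mem_iUnion]
  exact ⟨r, hr, p, q, o, h, rfl⟩

theorem ann_sound (A : Runs T Q) {R : Set (ContextFreeRule T N)} {α : List (Symbol T N)}
    {γ : List (Symbol T (Q × N × Q))} {p q : Q} {w : List T} (hA : Ann A p α γ q)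
    (hw : Interp (fun X => {w | Der R [nonterminal X.2.1] w ∧ A.rel X.1 w X.2.2}) γ w) :
    Der R α w ∧ A.rel p w q := by
  induction α generalizing p γ w with
  | nil =>
    obtain ⟨rfl, h⟩ := hA
    rw [show w = [] from hw]
    exact ⟨.nil, h⟩
  | cons a α ih =>
    cases a with
    | terminal t =>
      obtain ⟨m, γ', rfl, hm, hA'⟩ := hA
      obtain ⟨w', rfl, hw'⟩ := hw
      obtain ⟨h1, h2⟩ := ih hA' hw'
      exact ⟨.term t h1, (A.append p [t] w' q).2 ⟨m, hm, h2⟩⟩
    | nonterminal X =>
      obtain ⟨m, γ', rfl, hA'⟩ := hA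
      obtain ⟨u, v, rfl, hu, hv⟩ := hw
      obtain ⟨h1, h2⟩ := ih hA' hv
      exact ⟨Der.append (α := [nonterminal X]) hu.1 h1, (A.append p u v q).2 ⟨m, hu.2, h2⟩⟩

theorem ann_complete (A : Runs T Q) {R : Set (ContextFreeRule T N)} {α : List (Symbol T N)}
    {w : List T} (h : Der R α w) : ∀ p q, A.rel p w q →
      ∃ γ, Ann A p α γ q ∧ Der (annRules A R) γ w := by
  induction h with
  | nil => exact fun p q h => ⟨[], ⟨rfl, h⟩, .nil⟩
  | @term t α w _ ih =>
    intro p q h
    obtain ⟨m, h1, h2⟩ := (A.append p [t] w q).1 h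
    obtain ⟨γ, h3, h4⟩ := ih m q h2
    exact ⟨terminal t :: γ, ⟨m, γ, rfl, h1, h3⟩, .term t h4⟩
  | @nonterm r α u w hr _ _ ih1 ih2 =>
    intro p q h
    obtain ⟨m, h1, h2⟩ := (A.append p u w q).1 h
    obtain ⟨γ1, h3, h4⟩ := ih1 p m h1
    obtain ⟨γ2, h5, h6⟩ := ih2 m q h2
    refine ⟨nonterminal (p, r.input, m) :: γ2, ⟨m, γ2, rfl, h5⟩, ?_⟩
    exact Der.nonterm (r := ⟨(p, r.input, m), γ1⟩) ⟨r, hr, p, m, rfl, h3⟩ h4 h6

/-- the intersection of a context-free language with a regular language is context-free -/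
theorem isContextFree_inter [Finite Q] {L : Language T} (hL : L.IsContextFree) (A : Runs T Q)
    (p q : Q) : Language.IsContextFree ({w | w ∈ L ∧ A.rel p w q} : Language T) := by
  obtain ⟨N, R, X, hR, rfl⟩ := exists_lang hL
  have key : ({w | w ∈ lang R X ∧ A.rel p w q} : Language T) =
      lang (annRules A R) (p, X, q) := by
    ext w
    constructor
    · rintro ⟨h1, h2⟩
      obtain ⟨r, hr, hrX, h3⟩ := der_nt_iff.1 h1
      obtain ⟨γ, h4, h5⟩ := ann_complete A h3 p q h2
      exact der_nt_iff.2 ⟨⟨(p, X, q), γ⟩, ⟨r, hr, p, q, by rw [hrX], h4⟩, rfl, h5⟩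
    · intro h
      refine lang_sound (fun X => {w | Der R [nonterminal X.2.1] w ∧ A.rel X.1 w X.2.2})
        ?_ (p, X, q) h
      rintro ⟨i, o⟩ ⟨r, hr, p, q, rfl, hA⟩ w hw
      obtain ⟨h1, h2⟩ := ann_sound A hA hw
      exact ⟨der_nt_iff.2 ⟨r, hr, rfl, h1⟩, h2⟩
  rw [key]
  exact isContextFree_lang (annRules_finite A hR) _

end Pool.Agent.Helper22.FL
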