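import Pool.Agent.Helper22.FL.Ogden
import Pool.Agent.Helper22.FL.Closure

/-!
The commutative language of the counterexample is not context-free.
-/

namespace Pool.Agent.Helper22.FL

/-- the set of letter counts of the counterexample -/
def CM (x1 x2 x3 x4 : ℕ) : Prop :=
  (x2 ≤ x3 ∧ x3 + x4 ≤ x1 + x2) ∨ (x4 ≤ 2 * x2 ∧ 2 * x2 ≤ 2 * x3 + x4) ∨
    (x3 ≤ 2 * x2 ∧ 2 * x2 ≤ 2 * x4 + x3)

/-- all words with letter counts in `CM` -/
def MM : Language (Fin 4) := {w | CM (w.count 0) (w.count 1) (w.count 2) (w.count 3)}

/-- transition function of an automaton for `1^* 0^* (2 3)^*` -/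
def st (s : Fin 5) (c : Fin 4) : Fin 5 :=
  match s, c with
  | 0, 1 => 0
  | 0, 0 => 1
  | 0, 2 => 3
  | 1, 0 => 1
  | 1, 2 => 3
  | 2, 2 => 3
  | 3, 3 => 2
  | _, _ => 4

/-- its runs -/
def stRuns : Runs (Fin 4) (Fin 5) where
  rel p w q := w.foldl st p = q
  append p u v q := by
    rw [List.foldl_append]
    exact ⟨fun h => ⟨_, rfl, h⟩, fun ⟨m, h1, h2⟩ => by rw [h1, h2]⟩

theorem foldl_four (w : List (Fin 4)) : w.foldl st 4 = 4 := by
  induction w with
  | nil => rfl
  | cons c w ih =>
    have : st 4 c = 4 := by revert c; decide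
    rw [List.foldl_cons, this, ih]

theorem foldl_zero {s : Fin 5} {w : List (Fin 4)} (h : w.foldl st s = 0) :
    s = 0 ∧ ∀ c ∈ w, c = 1 := by
  induction w generalizing s with
  | nil => exact ⟨h, by simp⟩
  | cons c w ih =>
    rw [List.foldl_cons] at h
    obtain ⟨h1, h2⟩ := ih h
    have h3 : ∀ s c, st s c = 0 → s = 0 ∧ c = 1 := by decide
    obtain ⟨h4, h5⟩ := h3 s c h1
    refine ⟨h4, fun d hd => ?_⟩
    rcases List.mem_cons.1 hd with rfl | hd
    · exact h5
    · exact h2 d hd

theorem foldl_one {s : Fin 5} {w : List (Fin 4)} (h : w.foldl st s = 0 ∨ w.foldl st s = 1) :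
    (s = 0 ∨ s = 1) ∧ ∀ c ∈ w, c = 1 ∨ c = 0 := by
  induction w generalizing s with
  | nil => exact ⟨h, by simp⟩
  | cons c w ih =>
    rw [List.foldl_cons] at h
    obtain ⟨h1, h2⟩ := ih h
    have h3 : ∀ s c, (st s c = 0 ∨ st s c = 1) → (s = 0 ∨ s = 1) ∧ (c = 1 ∨ c = 0) := by decide
    obtain ⟨h4, h5⟩ := h3 s c h1
    refine ⟨h4, fun d hd => ?_⟩
    rcases List.mem_cons.1 hd with rfl | hd
    · exact h5
    · exact h2 d hd

theorem before_one {P Q : List (Fin 4)} (h : (P ++ 1 :: Q).foldl st 0 = 2) :
    ∀ c ∈ P, c = 1 := by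
  rw [List.foldl_append, List.foldl_cons] at h
  have h1 : ∀ s, st s 1 = 4 ∨ s = 0 := by decide
  rcases h1 (P.foldl st 0) with h2 | h2
  · rw [h2, foldl_four] at h
    exact absurd h (by decide)
  · exact (foldl_zero h2).2

theorem before_zero {P Q : List (Fin 4)} (h : (P ++ 0 :: Q).foldl st 0 = 2) :
    ∀ c ∈ P, c = 1 ∨ c = 0 := by
  rw [List.foldl_append, List.foldl_cons] at h
  have h1 : ∀ s, st s 0 = 4 ∨ (s = 0 ∨ s = 1) := by decide
  rcases h1 (P.foldl st 0) with h2 | h2
  · rw [h2, foldl_four] at h
    exact absurd h (by decide)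
  · exact (foldl_one h2).2

/-- correction term -/
def ee (s : Fin 5) : ℕ := if s = 3 then 1 else 0

theorem foldl_count {s : Fin 5} {w : List (Fin 4)} (h : w.foldl st s ≠ 4) :
    w.count 2 + ee s = w.count 3 + ee (w.foldl st s) := by
  induction w generalizing s with
  | nil => simp
  | cons c w ih =>
    rw [List.foldl_cons] at h ⊢
    have h1 := ih h
    have h2 : st s c ≠ 4 := by
      intro h2
      rw [h2, foldl_four] at h
      exact h rfl
    have h3 : ∀ s c, st s c ≠ 4 → (if c = 2 then 1 else 0) + ee s =
        (if c = 3 then 1 else 0) + ee (st s c) := by decide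
    have h4 := h3 s c h2
    simp only [List.count_cons, beq_iff_eq]
    omega

theorem count_rep (a : Fin 4) (v : List (Fin 4)) (k : ℕ) :
    (List.replicate k v).flatten.count a = k * v.count a := by
  induction k with
  | zero => simp
  | succ k ih =>
    rw [List.replicate_succ, List.flatten_cons, List.count_append, ih]
    ring

theorem not_isContextFree_MM : ¬ MM.IsContextFree := by
  intro hM
  have hL := isContextFree_inter hM stRuns 0 2
  obtain ⟨p, hp⟩ := ogden hL (1 : Fin 4)
  set n := 2 * p + 1 with hn
  set w0 : List (Fin 4) := List.replicate n 1 ++ List.replicate (5 * n) 0 ++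
    (List.replicate (3 * n) [2, 3]).flatten with hw0
  have c0 : w0.count 0 = 5 * n := by
    simp [hw0, List.count_append, count_rep, List.count_replicate]
  have c1 : w0.count 1 = n := by
    simp [hw0, List.count_append, count_rep, List.count_replicate]
  have c2 : w0.count 2 = 3 * n := by
    simp [hw0, List.count_append, count_rep, List.count_replicate]
  have c3 : w0.count 3 = 3 * n := by
    simp [hw0, List.count_append, count_rep, List.count_replicate]
  have hrun : w0.foldl st 0 = 2 := by
    have h1 : ∀ k, (List.replicate k (1 : Fin 4)).foldl st 0 = 0 := by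
      intro k
      induction k with
      | zero => rfl
      | succ k ih => rw [List.replicate_succ, List.foldl_cons]; exact ih
    have h2 : ∀ k, (List.replicate k (0 : Fin 4)).foldl st 1 = 1 := by
      intro k
      induction k with
      | zero => rfl
      | succ k ih => rw [List.replicate_succ, List.foldl_cons]; exact ih
    have h2' : ∀ k, 1 ≤ k → (List.replicate k (0 : Fin 4)).foldl st 0 = 1 := by
      intro k hk
      obtain ⟨k, rfl⟩ := Nat.exists_eq_add_of_le' hk
      rw [List.replicate_succ, List.foldl_cons]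
      exact h2 k
    have h3 : ∀ k, ((List.replicate k ([2, 3] : List (Fin 4))).flatten).foldl st 2 = 2 := by
      intro k
      induction k with
      | zero => rfl
      | succ k ih =>
        rw [List.replicate_succ, List.flatten_cons, List.foldl_append]
        exact ih
    have h3' : ∀ k, 1 ≤ k →
        ((List.replicate k ([2, 3] : List (Fin 4))).flatten).foldl st 1 = 2 := by
      intro k hk
      obtain ⟨k, rfl⟩ := Nat.exists_eq_add_of_le' hk
      rw [List.replicate_succ, List.flatten_cons, List.foldl_append]
      exact h3 k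
    rw [hw0, List.foldl_append, List.foldl_append, h1, h2' _ (by omega), h3' _ (by omega)]
  have hmem : w0 ∈ ({w | w ∈ MM ∧ stRuns.rel 0 w 2} : Language (Fin 4)) := by
    refine ⟨?_, hrun⟩
    show CM _ _ _ _
    rw [c0, c1, c2, c3]
    left
    omega
  obtain ⟨u, v, x, y, z, hw, hvy, hle, hpump⟩ := hp w0 hmem (by rw [c1]; omega)
  have hcnt : ∀ a : Fin 4, w0.count a =
      u.count a + v.count a + x.count a + y.count a + z.count a := by
    intro a
    rw [hw]
    simp only [List.count_append]
  have hpc : ∀ (a : Fin 4) (k : ℕ), (u ++ (List.replicate (k + 1) v).flatten ++ x ++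
      (List.replicate (k + 1) y).flatten ++ z).count a =
      w0.count a + k * (v.count a + y.count a) := by
    intro a k
    rw [hcnt]
    simp only [List.count_append, count_rep]
    ring
  have h2 := (hpump 2).2
  have h2' : (u ++ v ++ v ++ x ++ y ++ y ++ z).foldl st 0 = 2 := by
    have : u ++ (List.replicate 2 v).flatten ++ x ++ (List.replicate 2 y).flatten ++ z =
        u ++ v ++ v ++ x ++ y ++ y ++ z := by
      simp [List.replicate_succ, List.append_assoc]
    rw [← this]
    exact h2
  -- the counts of the letters 2 and 3 in the pumped parts agree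
  have heq : v.count 2 + y.count 2 = v.count 3 + y.count 3 := by
    have h3 := foldl_count (s := 0) (w := u ++ v ++ v ++ x ++ y ++ y ++ z)
      (by rw [h2']; decide)
    rw [h2'] at h3
    have h4 := hcnt 2
    have h5 := hcnt 3
    rw [c2] at h4
    rw [c3] at h5
    simp only [List.count_append, ee] at h3
    simp at h3
    omega
  have hall : ∀ (l : List (Fin 4)) (a : Fin 4), (∀ c ∈ l, c = 1) → a ≠ 1 → l.count a = 0 := by
    intro l a h ha
    rw [List.count_eq_zero]
    intro hc
    exact ha (h a hc)
  have hstr : (v.count 0 + y.count 0 = 0) ∨ (v.count 2 + y.count 2 = 0) := by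
    by_cases hy : (1 : Fin 4) ∈ y
    · obtain ⟨y1, y2, rfl⟩ := List.append_of_mem hy
      have h3 : ((u ++ v ++ v ++ x ++ (y1 ++ 1 :: y2) ++ y1) ++ 1 :: (y2 ++ z)).foldl st 0 = 2 := by
        rw [← h2']
        simp [List.append_assoc]
      have h4 := before_one h3
      left
      rw [hall v 0 (fun c hc => h4 c (by simp [hc])) (by decide),
        hall (y1 ++ 1 :: y2) 0 (fun c hc => h4 c (by
          simp only [List.mem_append] at hc ⊢
          tauto)) (by decide)]
    · have hy0 : y.count 1 = 0 := List.count_eq_zero.2 hy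
      have hv : (1 : Fin 4) ∈ v := by
        rw [← List.count_pos_iff]
        omega
      obtain ⟨v1, v2, rfl⟩ := List.append_of_mem hv
      have h3 : ((u ++ (v1 ++ 1 :: v2) ++ v1) ++ 1 :: (v2 ++ x ++ y ++ y ++ z)).foldl st 0
          = 2 := by
        rw [← h2']
        simp [List.append_assoc]
      have h4 := before_one h3
      have h5 : ∀ a : Fin 4, a ≠ 1 → (v1 ++ 1 :: v2).count a = 0 := fun a ha =>
        hall _ a (fun c hc => h4 c (by
          simp only [List.mem_append] at hc ⊢
          tauto)) ha
      rw [h5 0 (by decide), h5 2 (by decide)]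
      by_cases hy1 : (0 : Fin 4) ∈ y
      · right
        obtain ⟨y1, y2, rfl⟩ := List.append_of_mem hy1
        have h6 : ((u ++ (v1 ++ 1 :: v2) ++ (v1 ++ 1 :: v2) ++ x ++ (y1 ++ 0 :: y2) ++ y1) ++
            0 :: (y2 ++ z)).foldl st 0 = 2 := by
          rw [← h2']
          simp [List.append_assoc]
        have h7 := before_zero h6
        have : (y1 ++ 0 :: y2).count 2 = 0 := by
          rw [List.count_eq_zero]
          intro hc
          have := h7 2 (by
            simp only [List.mem_append] at hc ⊢
            tauto)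
          revert this
          decide
        omega
      · left
        rw [List.count_eq_zero.2 hy1]
  set h := v.count 0 + y.count 0 with hh
  set i := v.count 1 + y.count 1 with hi
  set j := v.count 2 + y.count 2 with hj
  have hk : ∀ k : ℕ, CM (5 * n + k * h) (n + k * i) (3 * n + k * j) (3 * n + k * j) := by
    intro k
    have := (hpump (k + 1)).1
    have h3 : CM _ _ _ _ := this
    rw [hpc 0, hpc 1, hpc 2, hpc 3, c0, c1, c2, c3, ← heq] at h3
    exact h3
  have hip : i ≤ p := by omega
  have hK := hk (9 * n + 1)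
  set K := 9 * n + 1 with hKdef
  have h1 := hk 1
  unfold CM at hK h1
  have hKi : K ≤ K * i := Nat.le_mul_of_pos_right K (by omega)
  rcases hstr with h0 | j0
  · rw [h0] at hK h1
    have hji : 2 * j ≤ i := by
      rcases h1 with h1 | h1 | h1 <;> omega
    rcases hK with hK | hK | hK
    · have h3 : K * (j + 1) ≤ K * i := Nat.mul_le_mul_left K (by omega)
      rw [Nat.mul_add] at h3
      omega
    · have h3 : K * (3 * j + 1) ≤ K * (2 * i) := Nat.mul_le_mul_left K (by omega)
      have h4 : K * (3 * j + 1) = 3 * (K * j) + K := by ring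
      have h5 : K * (2 * i) = 2 * (K * i) := by ring
      omega
    · have h3 : K * (3 * j + 1) ≤ K * (2 * i) := Nat.mul_le_mul_left K (by omega)
      have h4 : K * (3 * j + 1) = 3 * (K * j) + K := by ring
      have h5 : K * (2 * i) = 2 * (K * i) := by ring
      omega
  · rw [j0] at hK
    rcases hK with hK | hK | hK <;> omega

end Pool.Agent.Helper22.FL
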