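import Pool.Agent.Helper22.FL.Big

/-!
Words that can be reduced to the empty word by cancelling adjacent pairs of letters
(in a symmetric relation) and occurrences of one letter.
-/

namespace Pool.Agent.Helper22.FL

open Symbol

variable {T : Type}

/-- the reducible words -/
inductive Red (P : T → T → Prop) (c : T) : List T → Prop
  | nil : Red P c []
  | one : Red P c [c]
  | cat {u v : List T} : Red P c u → Red P c v → Red P c (u ++ v)
  | pair {a b : T} {u : List T} : P a b → Red P c u → Red P c (a :: (u ++ [b]))

/-- the grammar -/
def redRules (P : T → T → Prop) (c : T) : Set (ContextFreeRule T Unit) :=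
  {⟨(), []⟩, ⟨(), [terminal c]⟩, ⟨(), [nonterminal (), nonterminal ()]⟩} ∪
    {r | ∃ a b, P a b ∧ r = ⟨(), [terminal a, nonterminal (), terminal b]⟩}

theorem redRules_finite [Finite T] (P : T → T → Prop) (c : T) : (redRules P c).Finite := by
  refine (Set.toFinite _).union ?_
  refine (Set.finite_range (fun ab : T × T =>
    (⟨(), [terminal ab.1, nonterminal (), terminal ab.2]⟩ : ContextFreeRule T Unit))).subset ?_
  rintro r ⟨a, b, _, rfl⟩
  exact ⟨(a, b), rfl⟩

variable {P : T → T → Prop} {c : T}

theorem isContextFree_red [Finite T] (P : T → T → Prop) (c : T) :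
    Language.IsContextFree ({w | Red P c w} : Language T) := by
  have key : ({w | Red P c w} : Language T) = lang (redRules P c) () := by
    ext w
    constructor
    · intro h
      change Red P c w at h
      induction h with
      | nil => exact der_nt_iff.2 ⟨⟨(), []⟩, Or.inl (Or.inl rfl), rfl, .nil⟩
      | one =>
        exact der_nt_iff.2 ⟨⟨(), [terminal c]⟩, Or.inl (Or.inr (Or.inl rfl)), rfl,
          .term c .nil⟩
      | cat _ _ ih1 ih2 =>
        exact der_nt_iff.2 ⟨⟨(), [nonterminal (), nonterminal ()]⟩,
          Or.inl (Or.inr (Or.inr rfl)), rfl, Der.append (α := [nonterminal ()]) ih1 ih2⟩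
      | @pair a b u hab _ ih =>
        refine der_nt_iff.2 ⟨⟨(), [terminal a, nonterminal (), terminal b]⟩,
          Or.inr ⟨a, b, hab, rfl⟩, rfl, ?_⟩
        exact Der.term a (Der.append (α := [nonterminal ()]) ih (Der.term b Der.nil))
    · intro h
      refine lang_sound (fun _ => {w | Red P c w}) ?_ () h
      rintro r ((rfl | rfl | rfl) | ⟨a, b, hab, rfl⟩) w hw
      · rw [show w = [] from hw]
        exact Red.nil
      · obtain ⟨w', rfl, hw'⟩ := hw
        rw [show w' = [] from hw']
        exact Red.one
      · obtain ⟨u, v, rfl, hu, v', z, rfl, hv, hz⟩ := hw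
        rw [show z = [] from hz, List.append_nil]
        exact Red.cat hu hv
      · obtain ⟨w', rfl, u, v, rfl, hu, v', rfl, hv⟩ := hw
        rw [show v' = [] from hv]
        exact Red.pair hab hu
  rw [key]
  exact isContextFree_lang (redRules_finite P c) ()

theorem Red.insert {w : List T} (h : Red P c w) :
    ∀ u v s : List T, w = u ++ v → Red P c s → Red P c (u ++ s ++ v) := by
  induction h with
  | nil =>
    intro u v s h hs
    have := List.append_eq_nil_iff.1 h.symm
    rw [this.1, this.2]
    simpa using hs
  | one =>
    intro u v s h hs
    rcases u with _ | ⟨x, u⟩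
    · rw [List.nil_append] at h
      rw [← h]
      exact hs.cat .one
    · rw [List.cons_append] at h
      obtain ⟨rfl, h1⟩ := List.cons.inj h
      have := List.append_eq_nil_iff.1 h1.symm
      rw [this.1, this.2]
      simpa using Red.one.cat hs
  | @cat x y hx hy ih1 ih2 =>
    intro u v s h hs
    rcases List.append_eq_append_iff.1 h with ⟨a, rfl, rfl⟩ | ⟨a, rfl, rfl⟩
    · have := hx.cat (ih2 a v s rfl hs)
      simpa [List.append_assoc] using this
    · have := (ih1 u a s rfl hs).cat hy
      simpa [List.append_assoc] using this
  | @pair a b x hab hx ih =>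
    intro u v s h hs
    rcases u with _ | ⟨y, u⟩
    · rw [List.nil_append] at h
      rw [← h]
      exact hs.cat (.pair hab hx)
    · rw [List.cons_append] at h
      obtain ⟨rfl, h1⟩ := List.cons.inj h
      rcases List.append_eq_append_iff.1 h1 with ⟨d, rfl, h2⟩ | ⟨d, rfl, rfl⟩
      · rcases d with _ | ⟨e, d⟩
        · rw [List.nil_append] at h2
          rw [← h2]
          have := Red.pair hab (hx.cat hs)
          simpa [List.append_assoc] using this
        · rw [List.cons_append] at h2
          obtain ⟨rfl, h3⟩ := List.cons.inj h2
          have := List.append_eq_nil_iff.1 h3.symm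
          rw [this.1, this.2]
          have := (Red.pair hab hx).cat hs
          simpa [List.append_assoc] using this
      · have := Red.pair hab (ih u d s rfl hs)
        simpa [List.append_assoc] using this

theorem Red.rot_aux (hP : ∀ a b, P a b → P b a) {w : List T} (h : Red P c w) :
    ∀ u v : List T, w = u ++ v → Red P c (v ++ u) := by
  induction h with
  | nil =>
    intro u v h
    have := List.append_eq_nil_iff.1 h.symm
    rw [this.1, this.2]
    exact .nil
  | one =>
    intro u v h
    rcases u with _ | ⟨x, u⟩
    · rw [List.nil_append] at h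
      rw [← h]
      exact .one
    · rw [List.cons_append] at h
      obtain ⟨rfl, h1⟩ := List.cons.inj h
      have := List.append_eq_nil_iff.1 h1.symm
      rw [this.1, this.2]
      exact .one
  | @cat x y hx hy ih1 ih2 =>
    intro u v h
    rcases List.append_eq_append_iff.1 h with ⟨a, rfl, rfl⟩ | ⟨a, rfl, rfl⟩
    · exact (ih2 a v rfl).insert v a x rfl hx |> (by simpa [List.append_assoc] using ·)
    · have := (ih1 u a rfl).insert a u y rfl hy
      simpa [List.append_assoc] using this
  | @pair a b x hab hx ih =>
    intro u v h
    have hba : Red P c [b, a] := Red.pair (u := []) (hP a b hab) .nil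
    rcases u with _ | ⟨y, u⟩
    · rw [List.nil_append] at h
      rw [← h, List.append_nil]
      exact .pair hab hx
    · rw [List.cons_append] at h
      obtain ⟨rfl, h1⟩ := List.cons.inj h
      rcases List.append_eq_append_iff.1 h1 with ⟨d, rfl, h2⟩ | ⟨d, rfl, rfl⟩
      · rcases d with _ | ⟨e, d⟩
        · rw [List.nil_append] at h2
          rw [← h2]
          have := hba.cat hx
          simpa [List.append_assoc] using this
        · rw [List.cons_append] at h2
          obtain ⟨rfl, h3⟩ := List.cons.inj h2
          have := List.append_eq_nil_iff.1 h3.symm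
          rw [this.1, this.2]
          have := Red.pair hab hx
          simpa [List.append_assoc] using this
      · have := (ih u d rfl).insert d u [b, a] rfl hba
        simpa [List.append_assoc] using this

theorem Red.rot (hP : ∀ a b, P a b → P b a) {u v : List T} (h : Red P c (u ++ v)) :
    Red P c (v ++ u) := h.rot_aux hP u v rfl

theorem Red.rev (hP : ∀ a b, P a b → P b a) {w : List T} (h : Red P c w) :
    Red P c w.reverse := by
  induction h with
  | nil => exact .nil
  | one => exact .one
  | cat _ _ ih1 ih2 =>
    rw [List.reverse_append]
    exact ih2.cat ih1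
  | pair hab _ ih =>
    have := Red.pair (hP _ _ hab) ih
    simpa using this

theorem Red.rep (k : ℕ) : Red P c (List.replicate k c) := by
  induction k with
  | zero => exact .nil
  | succ k ih =>
    rw [List.replicate_succ]
    exact Red.one.cat ih

theorem Red.nest {a b : T} (hab : P a b) {u : List T} (h : Red P c u) (k : ℕ) :
    Red P c (List.replicate k a ++ (u ++ List.replicate k b)) := by
  induction k with
  | zero => simpa using h
  | succ k ih =>
    have := Red.pair hab ih
    rw [List.replicate_succ, List.replicate_succ' (n := k) (a := b)]
    simpa [List.append_assoc] using this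

end Pool.Agent.Helper22.FL
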