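import Pool.Agent.Helper22.FL.Pattern
import Pool.Agent.Helper22.FL.NotCF
import Pool.Agent.Helper22.FL.Weight
import Pool.Agent.Helper22.FL.Red

/-!
On every language `b_0^* b_1^* b_2^* b_3^*` the commutative language of the counterexample
agrees with one of two context-free languages.
-/

namespace Pool.Agent.Helper22.FL

/-- pairs of letters for the first grammar -/
def P1 (a b : Fin 4) : Prop :=
  (a = 0 ∧ b = 2) ∨ (a = 2 ∧ b = 0) ∨ (a = 0 ∧ b = 3) ∨ (a = 3 ∧ b = 0) ∨
    (a = 1 ∧ b = 2) ∨ (a = 2 ∧ b = 1)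

/-- pairs of letters for the second grammar -/
def P3 (a b : Fin 4) : Prop :=
  (a = 0 ∧ b = 2) ∨ (a = 2 ∧ b = 0) ∨ (a = 0 ∧ b = 3) ∨ (a = 3 ∧ b = 0) ∨
    (a = 1 ∧ b = 3) ∨ (a = 3 ∧ b = 1)

theorem P1_symm (a b : Fin 4) (h : P1 a b) : P1 b a := by unfold P1 at *; tauto

theorem P3_symm (a b : Fin 4) (h : P3 a b) : P3 b a := by unfold P3 at *; tauto

/-- first language -/
def L1 : Language (Fin 4) := ({w | Red P1 0 w} : Language (Fin 4)) ⊔ (LK1 ⊔ LK2)

/-- second language -/
def L3 : Language (Fin 4) := ({w | Red P3 0 w} : Language (Fin 4)) ⊔ (LK1 ⊔ LK2)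

theorem isContextFree_L1 : L1.IsContextFree :=
  isContextFree_sup (isContextFree_red P1 0)
    (isContextFree_sup isContextFree_LK1 isContextFree_LK2)

theorem isContextFree_L3 : L3.IsContextFree :=
  isContextFree_sup (isContextFree_red P3 0)
    (isContextFree_sup isContextFree_LK1 isContextFree_LK2)

theorem red_P1_count {w : List (Fin 4)} (h : Red P1 0 w) :
    w.count 1 ≤ w.count 2 ∧ w.count 2 + w.count 3 ≤ w.count 0 + w.count 1 := by
  induction h with
  | nil => simp
  | one => simp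
  | cat _ _ ih1 ih2 =>
    simp only [List.count_append]
    omega
  | pair hab _ ih =>
    rcases hab with ⟨rfl, rfl⟩ | ⟨rfl, rfl⟩ | ⟨rfl, rfl⟩ | ⟨rfl, rfl⟩ | ⟨rfl, rfl⟩ | ⟨rfl, rfl⟩ <;>
      simp [List.count_append] <;> omega

theorem red_P3_count {w : List (Fin 4)} (h : Red P3 0 w) :
    w.count 1 ≤ w.count 3 ∧ w.count 2 + w.count 3 ≤ w.count 0 + w.count 1 := by
  induction h with
  | nil => simp
  | one => simp
  | cat _ _ ih1 ih2 =>
    simp only [List.count_append]
    omega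
  | pair hab _ ih =>
    rcases hab with ⟨rfl, rfl⟩ | ⟨rfl, rfl⟩ | ⟨rfl, rfl⟩ | ⟨rfl, rfl⟩ | ⟨rfl, rfl⟩ | ⟨rfl, rfl⟩ <;>
      simp [List.count_append] <;> omega

theorem L1_le : L1 ≤ MM := by
  rintro w (h | h | h)
  · exact Or.inl (red_P1_count h)
  · exact Or.inr (Or.inl h)
  · exact Or.inr (Or.inr h)

theorem L3_le : L3 ≤ MM := by
  rintro w (h | h | h)
  · have h1 := red_P3_count h
    show CM _ _ _ _
    unfold CM
    omega
  · exact Or.inr (Or.inl h)
  · exact Or.inr (Or.inr h)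

theorem fin4 (a : Fin 4) : a = 0 ∨ a = 1 ∨ a = 2 ∨ a = 3 := by revert a; decide

theorem exists_adj (w : List (Fin 4)) (h0 : (0 : Fin 4) ∈ w) (h1 : ∃ a ∈ w, a ≠ 0) :
    ∃ u x y v, w = u ++ x :: y :: v ∧ ((x = 0 ∧ y ≠ 0) ∨ (x ≠ 0 ∧ y = 0)) := by
  induction w with
  | nil => simp at h0
  | cons t w ih =>
    rcases w with _ | ⟨s, w⟩
    · obtain ⟨a, ha, ha'⟩ := h1
      simp at h0 ha
      exact absurd (ha.trans h0.symm) ha'
    by_cases ht : t = 0
    · by_cases hs : s = 0
      · obtain ⟨u, x, y, v, h2, h3⟩ := ih (by simp [hs]) (by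
          obtain ⟨a, ha, ha'⟩ := h1
          refine ⟨a, ?_, ha'⟩
          rcases List.mem_cons.1 ha with rfl | ha
          · exact absurd ht ha'
          · exact ha)
        exact ⟨t :: u, x, y, v, by rw [h2, List.cons_append], h3⟩
      · exact ⟨[], t, s, w, rfl, Or.inl ⟨ht, hs⟩⟩
    · by_cases hs : s = 0
      · exact ⟨[], t, s, w, rfl, Or.inr ⟨ht, hs⟩⟩
      · obtain ⟨u, x, y, v, h2, h3⟩ := ih (by
          rcases List.mem_cons.1 h0 with h | h
          · exact absurd h.symm ht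
          · exact h) ⟨s, by simp, hs⟩
        exact ⟨t :: u, x, y, v, by rw [h2, List.cons_append], h3⟩

theorem red_of_count (n : ℕ) : ∀ w : List (Fin 4), w.length ≤ n → w.count 1 = 0 →
    w.count 2 + w.count 3 ≤ w.count 0 → Red P1 0 w := by
  induction n with
  | zero =>
    intro w hn _ _
    rw [List.length_eq_zero_iff.1 (Nat.le_zero.1 hn)]
    exact .nil
  | succ n ih =>
    intro w hn h1 h2
    by_cases hall : ∃ a ∈ w, a ≠ 0
    · have h0 : (0 : Fin 4) ∈ w := by
        obtain ⟨a, ha, ha0⟩ := hall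
        rw [← List.count_pos_iff]
        have h3 : a = 1 ∨ a = 2 ∨ a = 3 := (fin4 a).resolve_left ha0
        rcases h3 with rfl | rfl | rfl
        · exact absurd ha (List.count_eq_zero.1 h1)
        · have := List.count_pos_iff.2 ha
          omega
        · have := List.count_pos_iff.2 ha
          omega
      obtain ⟨u, x, y, v, rfl, hxy⟩ := exists_adj w h0 hall
      simp only [List.count_append, List.count_cons, List.length_append, List.length_cons]
        at hn h1 h2
      have hne : x ≠ 1 ∧ y ≠ 1 := by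
        constructor
        · rintro rfl
          simp at h1
        · rintro rfl
          simp at h1
      have hfx := fin4 x
      have hfy := fin4 y
      have hred : Red P1 0 (u ++ v) := by
        refine ih _ ?_ ?_ ?_
        · rw [List.length_append]; omega
        · rw [List.count_append]; omega
        · simp only [List.count_append]
          rcases hxy with ⟨rfl, hy⟩ | ⟨hx, rfl⟩
          · rcases hfy with rfl | rfl | rfl | rfl <;> simp at h2 hy hne <;> omega
          · rcases hfx with rfl | rfl | rfl | rfl <;> simp at h2 hx hne <;> omega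
      have hpair : Red P1 0 [x, y] := by
        refine Red.pair (u := []) ?_ .nil
        unfold P1
        rcases hxy with ⟨rfl, hy⟩ | ⟨hx, rfl⟩
        · rcases hfy with rfl | rfl | rfl | rfl <;> simp at hy hne ⊢
        · rcases hfx with rfl | rfl | rfl | rfl <;> simp at hx hne ⊢
      have := hred.insert u v [x, y] rfl hpair
      simpa [List.append_assoc] using this
    · push Not at hall
      rw [List.eq_replicate_of_mem hall]
      exact Red.rep _

/-- words without one of the letters -/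
theorem missing {w : List (Fin 4)} (hw : w ∈ MM) (a : Fin 4) (ha : a ∉ w) : w ∈ L1 := by
  have h0 : w.count a = 0 := List.count_eq_zero.2 ha
  have hM : CM _ _ _ _ := hw
  unfold CM at hM
  have hf := fin4 a
  have key : (w.count 1 = 0 ∧ w.count 2 + w.count 3 ≤ w.count 0) ∨
      ((w.count 3 ≤ 2 * w.count 1 ∧ 2 * w.count 1 ≤ 2 * w.count 2 + w.count 3) ∨
        (w.count 2 ≤ 2 * w.count 1 ∧ 2 * w.count 1 ≤ 2 * w.count 3 + w.count 2)) := by
    rcases hf with rfl | rfl | rfl | rfl <;> omega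
  rcases key with h | h
  · exact Or.inl (red_of_count w.length w le_rfl h.1 h.2)
  · exact Or.inr h

/-- the word with letters in the order `a b c d` -/
def wd (x : Fin 4 → ℕ) (a b c d : Fin 4) : List (Fin 4) :=
  List.replicate (x a) a ++ (List.replicate (x b) b ++ (List.replicate (x c) c ++
    List.replicate (x d) d))

/-- all words of this form with counts in the first cone are reducible -/
def Q1 (a b c d : Fin 4) : Prop :=
  ∀ x : Fin 4 → ℕ, x 1 ≤ x 2 → x 2 + x 3 ≤ x 0 + x 1 → Red P1 0 (wd x a b c d)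

/-- all words of this form with counts in the second cone are reducible -/
def Q3 (a b c d : Fin 4) : Prop :=
  ∀ x : Fin 4 → ℕ, x 1 ≤ x 3 → x 2 + x 3 ≤ x 0 + x 1 → Red P3 0 (wd x a b c d)

theorem Q1.rot {a b c d : Fin 4} (h : Q1 a b c d) : Q1 b c d a := by
  intro x h1 h2
  have := (h x h1 h2).rot P1_symm
  simpa [wd, List.append_assoc] using this

theorem Q1.rev {a b c d : Fin 4} (h : Q1 a b c d) : Q1 d c b a := by
  intro x h1 h2
  have := (h x h1 h2).rev P1_symm
  simpa [wd, List.append_assoc] using this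

theorem Q3.rot {a b c d : Fin 4} (h : Q3 a b c d) : Q3 b c d a := by
  intro x h1 h2
  have := (h x h1 h2).rot P3_symm
  simpa [wd, List.append_assoc] using this

theorem Q3.rev {a b c d : Fin 4} (h : Q3 a b c d) : Q3 d c b a := by
  intro x h1 h2
  have := (h x h1 h2).rev P3_symm
  simpa [wd, List.append_assoc] using this

theorem Q1_0123 : Q1 0 1 2 3 := by
  intro x h1 h2
  obtain ⟨p, hp⟩ := Nat.exists_eq_add_of_le h1
  obtain ⟨q, hq⟩ : ∃ q, x 0 = q + (x 3 + p) := ⟨x 0 - (x 3 + p), by omega⟩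
  have e1 : Red P1 0 (List.replicate (x 1) 1 ++ ([] ++ List.replicate (x 1) 2)) :=
    Red.nest (by simp [P1]) .nil _
  have e2 := Red.nest (P := P1) (c := 0) (a := 0) (b := 2) (by simp [P1]) e1 p
  have e3 := Red.nest (P := P1) (c := 0) (a := 0) (b := 3) (by simp [P1]) e2 (x 3)
  have e4 := (Red.rep (P := P1) (c := 0) q).cat e3
  unfold wd
  rw [hq, hp, List.replicate_add, List.replicate_add, List.replicate_add]
  simp only [List.append_assoc, List.nil_append] at e4 ⊢
  exact e4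

theorem Q1_0213 : Q1 0 2 1 3 := by
  intro x h1 h2
  obtain ⟨p, hp⟩ := Nat.exists_eq_add_of_le h1
  obtain ⟨q, hq⟩ : ∃ q, x 0 = q + (x 3 + p) := ⟨x 0 - (x 3 + p), by omega⟩
  have e1 : Red P1 0 (List.replicate (x 1) 2 ++ ([] ++ List.replicate (x 1) 1)) :=
    Red.nest (by simp [P1]) .nil _
  have e2 : Red P1 0 (List.replicate p 0 ++ ([] ++ List.replicate p 2)) :=
    Red.nest (by simp [P1]) .nil _
  have e3 := Red.nest (P := P1) (c := 0) (a := 0) (b := 3) (by simp [P1]) (e2.cat e1) (x 3)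
  have e4 := (Red.rep (P := P1) (c := 0) q).cat e3
  unfold wd
  rw [hq, show x 2 = p + x 1 by omega, List.replicate_add, List.replicate_add,
    List.replicate_add]
  simp only [List.append_assoc, List.nil_append] at e4 ⊢
  exact e4

theorem Q3_0132 : Q3 0 1 3 2 := by
  intro x h1 h2
  obtain ⟨p, hp⟩ := Nat.exists_eq_add_of_le h1
  obtain ⟨q, hq⟩ : ∃ q, x 0 = q + (x 2 + p) := ⟨x 0 - (x 2 + p), by omega⟩
  have e1 : Red P3 0 (List.replicate (x 1) 1 ++ ([] ++ List.replicate (x 1) 3)) :=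
    Red.nest (by simp [P3]) .nil _
  have e2 := Red.nest (P := P3) (c := 0) (a := 0) (b := 3) (by simp [P3]) e1 p
  have e3 := Red.nest (P := P3) (c := 0) (a := 0) (b := 2) (by simp [P3]) e2 (x 2)
  have e4 := (Red.rep (P := P3) (c := 0) q).cat e3
  unfold wd
  rw [hq, hp, List.replicate_add, List.replicate_add, List.replicate_add]
  simp only [List.append_assoc, List.nil_append] at e4 ⊢
  exact e4

theorem all_perms (a b c d : Fin 4) (h : a ≠ b ∧ a ≠ c ∧ a ≠ d ∧ b ≠ c ∧ b ≠ d ∧ c ≠ d) :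
    Q1 a b c d ∨ Q3 a b c d := by
  have hl : (a, b, c, d) ∈ ([(0,1,2,3), (1,2,3,0), (2,3,0,1), (3,0,1,2),
      (3,2,1,0), (2,1,0,3), (1,0,3,2), (0,3,2,1),
      (0,2,1,3), (2,1,3,0), (1,3,0,2), (3,0,2,1),
      (3,1,2,0), (1,2,0,3), (2,0,3,1), (0,3,1,2),
      (0,1,3,2), (1,3,2,0), (3,2,0,1), (2,0,1,3),
      (2,3,1,0), (3,1,0,2), (1,0,2,3), (0,2,3,1)] : List (Fin 4 × Fin 4 × Fin 4 × Fin 4)) := by
    revert h
    revert a b c d
    decide
  simp only [List.mem_cons, Prod.mk.injEq, List.not_mem_nil, or_false] at hl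
  rcases hl with ⟨rfl, rfl, rfl, rfl⟩ | ⟨rfl, rfl, rfl, rfl⟩ | ⟨rfl, rfl, rfl, rfl⟩ |
    ⟨rfl, rfl, rfl, rfl⟩ | ⟨rfl, rfl, rfl, rfl⟩ | ⟨rfl, rfl, rfl, rfl⟩ | ⟨rfl, rfl, rfl, rfl⟩ |
    ⟨rfl, rfl, rfl, rfl⟩ | ⟨rfl, rfl, rfl, rfl⟩ | ⟨rfl, rfl, rfl, rfl⟩ | ⟨rfl, rfl, rfl, rfl⟩ |
    ⟨rfl, rfl, rfl, rfl⟩ | ⟨rfl, rfl, rfl, rfl⟩ | ⟨rfl, rfl, rfl, rfl⟩ | ⟨rfl, rfl, rfl, rfl⟩ |
    ⟨rfl, rfl, rfl, rfl⟩ | ⟨rfl, rfl, rfl, rfl⟩ | ⟨rfl, rfl, rfl, rfl⟩ | ⟨rfl, rfl, rfl, rfl⟩ |
    ⟨rfl, rfl, rfl, rfl⟩ | ⟨rfl, rfl, rfl, rfl⟩ | ⟨rfl, rfl, rfl, rfl⟩ | ⟨rfl, rfl, rfl, rfl⟩ |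
    ⟨rfl, rfl, rfl, rfl⟩
  · exact Or.inl Q1_0123
  · exact Or.inl Q1_0123.rot
  · exact Or.inl Q1_0123.rot.rot
  · exact Or.inl Q1_0123.rot.rot.rot
  · exact Or.inl Q1_0123.rev
  · exact Or.inl Q1_0123.rev.rot
  · exact Or.inl Q1_0123.rev.rot.rot
  · exact Or.inl Q1_0123.rev.rot.rot.rot
  · exact Or.inl Q1_0213
  · exact Or.inl Q1_0213.rot
  · exact Or.inl Q1_0213.rot.rot
  · exact Or.inl Q1_0213.rot.rot.rot
  · exact Or.inl Q1_0213.rev
  · exact Or.inl Q1_0213.rev.rot
  · exact Or.inl Q1_0213.rev.rot.rot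
  · exact Or.inl Q1_0213.rev.rot.rot.rot
  · exact Or.inr Q3_0132
  · exact Or.inr Q3_0132.rot
  · exact Or.inr Q3_0132.rot.rot
  · exact Or.inr Q3_0132.rot.rot.rot
  · exact Or.inr Q3_0132.rev
  · exact Or.inr Q3_0132.rev.rot
  · exact Or.inr Q3_0132.rev.rot.rot
  · exact Or.inr Q3_0132.rev.rot.rot.rot

/-- the covering theorem -/
theorem cover (b : Fin 4 → Fin 4) :
    (∀ w ∈ blocks b, w ∈ MM → w ∈ L1) ∨ (∀ w ∈ blocks b, w ∈ MM → w ∈ L3) := by
  by_cases hb : Function.Injective b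
  · have hne : b 0 ≠ b 1 ∧ b 0 ≠ b 2 ∧ b 0 ≠ b 3 ∧ b 1 ≠ b 2 ∧ b 1 ≠ b 3 ∧ b 2 ≠ b 3 := by
      refine ⟨?_, ?_, ?_, ?_, ?_, ?_⟩ <;> exact hb.ne (by decide)
    have hform : ∀ w ∈ blocks b, w = wd (fun i => w.count i) (b 0) (b 1) (b 2) (b 3) := by
      rintro w ⟨k, hk⟩
      have hw : w = List.replicate (k 0) (b 0) ++ (List.replicate (k 1) (b 1) ++
          (List.replicate (k 2) (b 2) ++ List.replicate (k 3) (b 3))) := by
        rw [hk]
        simp [List.ofFn_succ]
      obtain ⟨n01, n02, n03, n12, n13, n23⟩ := hne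
      have c0 : w.count (b 0) = k 0 := by
        rw [hw]
        simp [List.count_append, List.count_replicate, n01.symm, n02.symm, n03.symm]
      have c1 : w.count (b 1) = k 1 := by
        rw [hw]
        simp [List.count_append, List.count_replicate, n01, n12.symm, n13.symm]
      have c2 : w.count (b 2) = k 2 := by
        rw [hw]
        simp [List.count_append, List.count_replicate, n02, n12, n23.symm]
      have c3 : w.count (b 3) = k 3 := by
        rw [hw]
        simp [List.count_append, List.count_replicate, n03, n13, n23]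
      unfold wd
      simp only [c0, c1, c2, c3]
      exact hw
    rcases all_perms _ _ _ _ hne with h | h
    · left
      rintro w hw (hC | hC)
      · left
        have := h (fun i => w.count i) hC.1 hC.2
        rw [← hform w hw] at this
        exact this
      · exact Or.inr hC
    · right
      intro w hw hM
      by_cases hK : w ∈ LK1 ⊔ LK2
      · exact Or.inr hK
      · have hC : w.count 1 ≤ w.count 3 ∧ w.count 2 + w.count 3 ≤ w.count 0 + w.count 1 := by
          have hM' : CM _ _ _ _ := hM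
          have hK1 : ¬ (w.count 3 ≤ 2 * w.count 1 ∧
              2 * w.count 1 ≤ 2 * w.count 2 + w.count 3) := fun h => hK (Or.inl h)
          have hK2 : ¬ (w.count 2 ≤ 2 * w.count 1 ∧
              2 * w.count 1 ≤ 2 * w.count 3 + w.count 2) := fun h => hK (Or.inr h)
          unfold CM at hM'
          omega
        left
        have := h (fun i => w.count i) hC.1 hC.2
        rw [← hform w hw] at this
        exact this
  · left
    intro w hw hM
    have hns : ¬ Function.Surjective b := fun h => hb (Finite.injective_iff_surjective.2 h)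
    rw [Function.Surjective] at hns
    push Not at hns
    obtain ⟨a, ha⟩ := hns
    refine missing hM a fun hc => ?_
    obtain ⟨ps, _, rfl⟩ := mem_blocks_iff.1 hw
    obtain ⟨i, _, hi⟩ := List.mem_map.1 hc
    exact ha i hi

/-- intersections of the commutative language with regular languages inside some
`b_0^* b_1^* b_2^* b_3^*` are context-free -/
theorem isContextFree_slice {Q : Type} [Finite Q] (A : Runs (Fin 4) Q) (p q : Q)
    (b : Fin 4 → Fin 4) (hA : ∀ w, A.rel p w q → w ∈ blocks b) :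
    Language.IsContextFree ({w | w ∈ MM ∧ A.rel p w q} : Language (Fin 4)) := by
  rcases cover b with h | h
  · have : ({w | w ∈ MM ∧ A.rel p w q} : Language (Fin 4)) = {w | w ∈ L1 ∧ A.rel p w q} := by
      ext w
      exact ⟨fun hw => ⟨h w (hA w hw.2) hw.1, hw.2⟩, fun hw => ⟨L1_le hw.1, hw.2⟩⟩
    rw [this]
    exact isContextFree_inter isContextFree_L1 A p q
  · have : ({w | w ∈ MM ∧ A.rel p w q} : Language (Fin 4)) = {w | w ∈ L3 ∧ A.rel p w q} := by
      ext w
      exact ⟨fun hw => ⟨h w (hA w hw.2) hw.1, hw.2⟩, fun hw => ⟨L3_le hw.1, hw.2⟩⟩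
    rw [this]
    exact isContextFree_inter isContextFree_L3 A p q

end Pool.Agent.Helper22.FL
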