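import Pool.Agent.Helper22.FL.Cover

/-!
Transfer to alphabets with `n ≥ 4` letters.
-/

namespace Pool.Agent.Helper22.FL

theorem MM_perm {v w : List (Fin 4)} (h : v.Perm w) (hw : w ∈ MM) : v ∈ MM := by
  have hM : CM _ _ _ _ := hw
  show CM _ _ _ _
  rw [h.count_eq, h.count_eq, h.count_eq, h.count_eq]
  exact hM

/-- the words of the commutative language that lie in `0^* 1^* 2^* 3^*` -/
def ML : Language (Fin 4) := {w | w ∈ MM ∧ w ∈ blocks (id : Fin 4 → Fin 4)}

theorem sorted_mem {w : List (Fin 4)} (hw : w ∈ MM) : ∃ v ∈ ML, w.Perm v := by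
  have hp : w.Perm (w.mergeSort (· ≤ ·)) := (List.mergeSort_perm w _).symm
  refine ⟨w.mergeSort (· ≤ ·), ⟨MM_perm hp.symm hw, ?_⟩, hp⟩
  rw [mem_blocks_iff]
  refine ⟨w.mergeSort (· ≤ ·), ?_, by simp⟩
  have := List.pairwise_mergeSort (le := fun a b : Fin 4 => decide (a ≤ b))
    (by intro a b c h1 h2; simp at *; exact h1.trans h2)
    (by intro a b; simp; exact le_total a b) w
  simpa using this

variable {n : ℕ} (hn : 4 ≤ n)

/-- embedding of the four letters -/
def io (hn : 4 ≤ n) : Fin 4 → Fin n := Fin.castLE hn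

theorem io_injective : Function.Injective (io hn) := Fin.castLE_injective hn

/-- the language of the counterexample -/
def LL (hn : 4 ≤ n) : Language (Fin n) := Language.map (io hn) ML

theorem exists_left_inverse : ∃ g : Fin n → Fin 4, ∀ a, g (io hn a) = a :=
  ⟨Function.invFun (io hn), Function.leftInverse_invFun (io_injective hn)⟩

theorem comm_LL : comm (LL hn) = Language.map (io hn) MM := by
  obtain ⟨g, hg⟩ := exists_left_inverse hn
  have hgg : ∀ v : List (Fin 4), (v.map (io hn)).map g = v := by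
    intro v
    rw [List.map_map]
    have : g ∘ io hn = id := funext hg
    rw [this, List.map_id]
  ext w
  constructor
  · rintro ⟨_, ⟨v, hv, rfl⟩, hw⟩
    change w.Perm (v.map (io hn)) at hw
    have h1 : (w.map g).Perm v := by
      have := hw.map g
      rwa [hgg] at this
    refine ⟨w.map g, MM_perm h1 hv.1, ?_⟩
    rw [List.map_map]
    conv_rhs => rw [← List.map_id w]
    refine List.map_congr_left fun c hc => ?_
    have hc' := hw.subset hc
    obtain ⟨a, _, rfl⟩ := List.mem_map.1 hc'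
    simp [hg]
  · rintro ⟨w, hw, rfl⟩
    obtain ⟨v, hv, hp⟩ := sorted_mem hw
    exact ⟨v.map (io hn), ⟨v, hv, rfl⟩, hp.map _⟩

theorem slice {m : ℕ} (b : Fin (m + 1) → Fin n) (b' : Fin 4 → Fin 4)
    (h : ∀ w : List (Fin 4), w.map (io hn) ∈ blocks b → w ∈ blocks b') :
    (comm (LL hn) ⊓ blocks b).IsContextFree := by
  have key : comm (LL hn) ⊓ blocks b = Language.map (io hn)
      ({w | w ∈ MM ∧ ((patRuns b).comap (io hn)).rel 0 w (Fin.last m)} :
        Language (Fin 4)) := by
    rw [comm_LL]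
    ext w
    constructor
    · rintro ⟨⟨w, hw, rfl⟩, hb⟩
      exact ⟨w, ⟨hw, patRuns_iff.2 hb⟩, rfl⟩
    · rintro ⟨w, ⟨hw, hb⟩, rfl⟩
      exact ⟨⟨w, hw, rfl⟩, patRuns_iff.1 hb⟩
  rw [key]
  exact isContextFree_map (isContextFree_slice _ _ _ b' fun w hw => h w (patRuns_iff.1 hw)) _

theorem isContextFree_LL : (LL hn).IsContextFree := by
  refine isContextFree_map ?_ _
  have : ML = {w | w ∈ MM ∧ (patRuns (m := 3) (id : Fin 4 → Fin 4)).rel 0 w (Fin.last 3)} := by
    ext w
    exact ⟨fun h => ⟨h.1, patRuns_iff.2 h.2⟩, fun h => ⟨h.1, patRuns_iff.1 h.2⟩⟩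
  rw [this]
  exact isContextFree_slice _ _ _ id fun w hw => patRuns_iff.1 hw

theorem LL_le : LL hn ≤ blocks (id : Fin n → Fin n) := by
  rintro _ ⟨w, hw, rfl⟩
  obtain ⟨ps, hps, h⟩ := mem_blocks_iff.1 hw.2
  rw [List.map_id] at h
  subst h
  refine mem_blocks_iff.2 ⟨w.map (io hn), ?_, (List.map_id _).symm⟩
  rw [List.pairwise_map]
  exact hps.imp fun h => h

theorem four_blocks (b : Fin 4 → Fin n) : (comm (LL hn) ⊓ blocks b).IsContextFree := by
  obtain ⟨g, hg⟩ := exists_left_inverse hn
  refine slice hn (m := 3) b (g ∘ b) fun w hw => ?_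
  obtain ⟨ps, hps, h⟩ := mem_blocks_iff.1 hw
  rw [mem_blocks_iff]
  refine ⟨ps, hps, ?_⟩
  rw [← List.map_map, ← h, List.map_map]
  have : g ∘ io hn = id := funext hg
  rw [this, List.map_id]

theorem perm_blocks (σ : Equiv.Perm (Fin n)) : (comm (LL hn) ⊓ blocks σ).IsContextFree := by
  obtain ⟨m, rfl⟩ : ∃ m, n = m + 1 := ⟨n - 1, by omega⟩
  set f : Fin 4 → Fin (m + 1) := fun a => σ.symm (io hn a) with hf
  have hfi : Function.Injective f := fun a c h => io_injective hn (σ.symm.injective h)
  set τ := Tuple.sort f with hτ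
  have hmono : StrictMono (f ∘ τ) :=
    (Tuple.monotone_sort f).strictMono_of_injective (hfi.comp τ.injective)
  refine slice hn σ τ fun w hw => ?_
  obtain ⟨ps, hps, h⟩ := mem_blocks_iff.1 hw
  rw [mem_blocks_iff]
  refine ⟨w.map τ.symm, ?_, ?_⟩
  · have hps' : ps = w.map f := by
      have h1 : ps = (ps.map σ).map σ.symm := by
        rw [List.map_map]
        simp
      rw [h1, ← h, List.map_map]
      rfl
    rw [hps', List.pairwise_map] at hps
    rw [List.pairwise_map]
    refine hps.imp fun {a c} hac => ?_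
    have h2 := hmono.le_iff_le (a := τ.symm a) (b := τ.symm c)
    simp only [Function.comp_apply, Equiv.apply_symm_apply] at h2
    exact h2.1 hac
  · rw [List.map_map]
    simp

theorem not_isContextFree_comm : ¬ (comm (LL hn)).IsContextFree := by
  intro h
  obtain ⟨g, hg⟩ := exists_left_inverse hn
  have h1 := isContextFree_map h g
  rw [comm_LL] at h1
  have : Language.map g (Language.map (io hn) MM) = MM := by
    rw [Language.map_map]
    have : g ∘ io hn = id := funext hg
    rw [this, Language.map_id]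
  rw [this] at h1
  exact not_isContextFree_MM h1

end Pool.Agent.Helper22.FL
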